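import Pool.Agent.Lib.MP_d8ef8f_an.Uf.Stm
import Pool.Agent.Lib.MP_d8ef8f_an.Gd.A1
import Pool.Agent.Lib.MP_d8ef8f_an.Gd.A2
import Pool.Agent.Lib.MP_d8ef8f_an.Gd.A3

/-!
# U0: the bound of every component from above by `2 m₀`
-/

set_option autoImplicit false

namespace Pool.Agent.Lib.MP_d8ef8f_an.Uf

open Set Filter Topology MeasureTheory
open Pool.Agent.Lib.MP_d8ef8f_an.Gd Pool.Agent.Lib.MP_d8ef8f_an.Ff

/-- derivative of the powers of the positive part -/
private theorem u0_pow (k : ℕ) (p : ℝ) :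
    HasDerivAt (fun q : ℝ => (max q 0) ^ (k + 2)) (((k : ℝ) + 2) * (max p 0) ^ (k + 1)) p := by
  rcases lt_trichotomy p 0 with hp | hp | hp
  · have h1 : (max p 0) ^ (k + 1) = 0 := by
      rw [max_eq_right hp.le]
      exact zero_pow (Nat.succ_ne_zero k)
    rw [h1, mul_zero]
    refine (hasDerivAt_const p (0:ℝ)).congr_of_eventuallyEq ?_
    filter_upwards [Iio_mem_nhds hp] with q hq
    rw [max_eq_right (mem_Iio.1 hq).le]
    exact zero_pow (Nat.succ_ne_zero (k + 1))
  · subst hp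
    rw [hasDerivAt_iff_tendsto_slope_zero]
    have h1 : Tendsto (fun t : ℝ => (max t 0) ^ (k + 1)) (𝓝[≠] 0)
        (𝓝 (((k : ℝ) + 2) * (max (0:ℝ) 0) ^ (k + 1))) := by
      have h2 : Continuous (fun t : ℝ => (max t 0) ^ (k + 1)) := by fun_prop
      have h3 := h2.tendsto (0:ℝ)
      have h4 : ((k : ℝ) + 2) * (max (0:ℝ) 0) ^ (k + 1) = (max (0:ℝ) 0) ^ (k + 1) := by
        simp
      rw [h4]
      exact h3.mono_left nhdsWithin_le_nhds
    refine h1.congr' ?_
    filter_upwards [self_mem_nhdsWithin] with t ht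
    have ht0 : t ≠ 0 := ht
    simp only [zero_add, max_self, smul_eq_mul]
    rw [zero_pow (Nat.succ_ne_zero (k + 1)), sub_zero]
    rcases lt_or_gt_of_ne ht0 with h | h
    · rw [max_eq_right h.le, zero_pow (Nat.succ_ne_zero k), zero_pow (Nat.succ_ne_zero (k + 1)),
        mul_zero]
    · rw [max_eq_left h.le, pow_succ t (k + 1), mul_comm (t ^ (k + 1)) t, ← mul_assoc,
        inv_mul_cancel₀ ht0, one_mul]
  · have h1 := hasDerivAt_pow (k + 2) p
    rw [max_eq_left hp.le]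
    have h2 : ((k + 2 : ℕ) : ℝ) * p ^ (k + 2 - 1) = ((k : ℝ) + 2) * p ^ (k + 1) := by
      push_cast
      rfl
    rw [h2] at h1
    refine h1.congr_of_eventuallyEq ?_
    filter_upwards [Ioi_mem_nhds hp] with q hq
    rw [max_eq_left (mem_Ioi.1 hq).le]

/-- composition with a function of one variable -/
private theorem u0_comp {n : ℕ} {Ω : Set (Sp n)} (hΩ : IsOpen Ω) {φ : Sp n → ℝ}
    {Dφ : Sp n → Sp n} (h : C1 Ω φ Dφ) {G G' : ℝ → ℝ}
    (hG : ∀ x ∈ closure Ω, HasDerivAt G (G' (φ x)) (φ x))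
    (hc : ContinuousOn (fun x => G' (φ x)) (closure Ω)) :
    C1 Ω (fun x => G (φ x)) (fun x => G' (φ x) • Dφ x) := by
  have h1 := p_A1 (ι := Unit) Ω hΩ (fun _ => φ) (fun _ => Dφ) (fun _ => h)
    (fun p => G (p ())) (fun _ p => G' (p ())) (by
      intro x hx
      have h2 := (hG x hx).comp_hasFDerivAt (f := fun p : Unit → ℝ => p ()) (fun _ => φ x)
        (hasFDerivAt_apply (𝕜 := ℝ) (F' := fun _ : Unit => ℝ) () _)
      refine (h2.congr_of_eventuallyEq (Eventually.of_forall fun p => rfl)).congr_fderiv ?_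
      ext v
      simp) (fun _ => hc)
  simpa using h1

private theorem u0_slice {n : ℕ} {Ω : Set (Sp n)} {T : Set ℝ} {E : Type} [TopologicalSpace E]
    {F : ℝ → Sp n → E}
    (hF : ContinuousOn (fun p : ℝ × Sp n => F p.1 p.2) (T ×ˢ closure Ω)) {t : ℝ} (ht : t ∈ T) :
    ContinuousOn (F t) (closure Ω) := by
  have h1 : ContinuousOn (fun x : Sp n => (t, x)) (closure Ω) := by fun_prop
  exact hF.comp h1 fun x hx => ⟨ht, hx⟩

/-- the differential inequality for the fourth power -/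
private theorem u0_ineq {n : ℕ} {Ω : Set (Sp n)} (hΩ : IsOpen Ω) (hb : Bornology.IsBounded Ω)
    {v vt lv e : Sp n → ℝ} {Dv : Sp n → Sp n} {δ K₁ κ κ' : ℝ} (hδ : 0 < δ)
    (hv : NeuLap Ω v Dv lv) (hvt : ContinuousOn vt (closure Ω))
    (heq : ∀ x ∈ closure Ω, vt x = δ * lv x + v x * e x)
    (he : ∀ x ∈ closure Ω, κ < v x → v x * e x - κ' ≤ K₁ * (v x - κ)) :
    ∫ x in Ω, 4 * (max (v x - κ) 0) ^ 3 * (vt x - κ') ≤
      4 * K₁ * ∫ x in Ω, (max (v x - κ) 0) ^ 4 := by
  have cv := hv.c1.cont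
  have cp : ContinuousOn (fun x => max (v x - κ) 0) (closure Ω) :=
    (cv.sub continuousOn_const).sup continuousOn_const
  have h1 := u0_comp hΩ hv.c1 (G := fun p => (max (p - κ) 0) ^ 3)
    (G' := fun p => 3 * (max (p - κ) 0) ^ 2) (fun x _ => by
      have h2 := (u0_pow 1 (v x - κ)).comp (v x) ((hasDerivAt_id (v x)).sub_const κ)
      have h3 : (((1 : ℕ) : ℝ) + 2) * (max (v x - κ) 0) ^ (1 + 1) * 1 =
          3 * (max (v x - κ) 0) ^ 2 := by
        norm_num
      rw [h3] at h2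
      exact h2) (continuousOn_const.mul (cp.pow 2))
  have h2 := hv.green _ _ h1
  have h3 : ∫ x in Ω, lv x * (max (v x - κ) 0) ^ 3 ≤ 0 := by
    rw [h2]
    have h4 : 0 ≤ ∫ x in Ω, inner ℝ (Dv x) ((3 * (max (v x - κ) 0) ^ 2) • Dv x) := by
      refine setIntegral_nonneg hΩ.measurableSet fun x _ => ?_
      rw [inner_smul_right, real_inner_self_eq_norm_sq]
      positivity
    linarith
  have cl := hv.cont
  have i1 : IntegrableOn (fun x => 4 * (max (v x - κ) 0) ^ 3 * (vt x - κ')) Ω :=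
    p_A2 Ω hb _ ((continuousOn_const.mul (cp.pow 3)).mul (hvt.sub continuousOn_const))
  have i2 : IntegrableOn (fun x => 4 * δ * (lv x * (max (v x - κ) 0) ^ 3)) Ω :=
    p_A2 Ω hb _ (continuousOn_const.mul (cl.mul (cp.pow 3)))
  have i3 : IntegrableOn (fun x => 4 * K₁ * (max (v x - κ) 0) ^ 4) Ω :=
    p_A2 Ω hb _ (continuousOn_const.mul (cp.pow 4))
  have h5 : ∫ x in Ω, 4 * (max (v x - κ) 0) ^ 3 * (vt x - κ') ≤
      ∫ x in Ω, (4 * δ * (lv x * (max (v x - κ) 0) ^ 3) + 4 * K₁ * (max (v x - κ) 0) ^ 4) := by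
    refine setIntegral_mono_on i1 (i2.add i3) hΩ.measurableSet fun x hx => ?_
    have hx' := subset_closure hx
    rw [heq x hx']
    rcases le_or_gt (v x) κ with h | h
    · rw [max_eq_right (by linarith : v x - κ ≤ 0)]
      simp
    · rw [max_eq_left (by linarith : 0 ≤ v x - κ)]
      have h6 := he x hx' h
      have h7 : 0 ≤ 4 * (v x - κ) ^ 3 := by
        have : 0 ≤ v x - κ := by linarith
        positivity
      have h8 := mul_le_mul_of_nonneg_left h6 h7
      linarith [h8]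
  rw [integral_add i2 i3, integral_const_mul, integral_const_mul] at h5
  have h6 : 4 * δ * (∫ x in Ω, lv x * (max (v x - κ) 0) ^ 3) ≤ 0 :=
    mul_nonpos_of_nonneg_of_nonpos (by positivity) h3
  linarith

/-- Gronwall -/
private theorem u0_gron {a b c : ℝ} {y y' : ℝ → ℝ} (hy : ∀ t ∈ Icc a b, HasDerivAt y (y' t) t)
    (hle : ∀ t ∈ Icc a b, y' t ≤ c * y t) (h0 : y a ≤ 0) : ∀ t ∈ Icc a b, y t ≤ 0 := by
  intro t ht
  have hd : ∀ s ∈ Icc a b, HasDerivAt (fun s => y s * Real.exp (-(c * s)))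
      (y' s * Real.exp (-(c * s)) + y s * (Real.exp (-(c * s)) * (-(c * 1)))) s := by
    intro s hs
    exact (hy s hs).mul ((((hasDerivAt_id s).const_mul c).neg).exp)
  have hanti : AntitoneOn (fun s => y s * Real.exp (-(c * s))) (Icc a b) := by
    apply antitoneOn_of_deriv_nonpos (convex_Icc _ _)
    · exact fun s hs => (hd s hs).continuousAt.continuousWithinAt
    · intro s hs
      rw [interior_Icc] at hs
      exact (hd s ⟨hs.1.le, hs.2.le⟩).differentiableAt.differentiableWithinAt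
    · intro s hs
      rw [interior_Icc] at hs
      have hs' : s ∈ Icc a b := ⟨hs.1.le, hs.2.le⟩
      rw [(hd s hs').deriv]
      have h1 := hle s hs'
      have h2 := Real.exp_pos (-(c * s))
      have h3 : y' s * Real.exp (-(c * s)) + y s * (Real.exp (-(c * s)) * (-(c * 1))) =
          (y' s - c * y s) * Real.exp (-(c * s)) := by ring
      rw [h3]
      exact mul_nonpos_of_nonpos_of_nonneg (by linarith) h2.le
  have h1 := hanti (left_mem_Icc.2 (ht.1.trans ht.2)) ht ht.1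
  simp only at h1
  have h2 := Real.exp_pos (-(c * t))
  have h3 : y a * Real.exp (-(c * a)) ≤ 0 :=
    mul_nonpos_of_nonpos_of_nonneg h0 (Real.exp_pos _).le
  by_contra h4
  have h5 := mul_pos (not_le.1 h4) h2
  linarith

theorem p_U0 : StmU0 := by
  intro n Ω hΩ hb m hm K₁ hK1 hmK N d hd M
  have hτ0 : 0 ≤ |M| / K₁ ^ 2 := div_nonneg (abs_nonneg M) (sq_nonneg _)
  refine ⟨|M| / K₁ ^ 2, hτ0, ?_⟩
  intro T hT a b hab u ut Du lu hS hM j t ht x hx
  have htI : t ∈ Icc a b := ⟨(le_add_of_nonneg_right hτ0).trans ht.1, ht.2⟩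
  have hab' : a ≤ b := htI.1.trans htI.2
  -- the barrier
  set κ : ℝ → ℝ := fun s => K₁ + |M| * Real.exp (-(K₁ * (s - a))) with hκ
  have hκd : ∀ s, HasDerivAt κ (-(K₁ * (κ s - K₁))) s := by
    intro s
    have h1 := (((((hasDerivAt_id s).sub_const a).const_mul K₁).neg).exp.const_mul
      |M|).const_add K₁
    refine h1.congr_deriv ?_
    simp only [hκ, id, Pi.neg_apply]
    ring
  have hκc : Continuous κ := continuous_iff_continuousAt.2 fun s => (hκd s).continuousAt
  have hκK : ∀ s, K₁ ≤ κ s := fun s => by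
    have : 0 ≤ |M| * Real.exp (-(K₁ * (s - a))) :=
      mul_nonneg (abs_nonneg M) (Real.exp_pos _).le
    simp only [hκ]
    linarith
  -- the functional
  have cF : ContinuousOn (fun p : ℝ × Sp n => max (u j p.1 p.2 - κ p.1) 0) (T ×ˢ closure Ω) :=
    ((hS.cu j).sub (hκc.comp continuous_fst).continuousOn).sup continuousOn_const
  have cκ' : Continuous (fun s => -(K₁ * (κ s - K₁))) := by fun_prop
  have cFt : ContinuousOn (fun p : ℝ × Sp n => 4 * (max (u j p.1 p.2 - κ p.1) 0) ^ 3 *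
      (ut j p.1 p.2 - -(K₁ * (κ p.1 - K₁)))) (T ×ˢ closure Ω) :=
    (continuousOn_const.mul (cF.pow 3)).mul
      ((hS.ct j).sub (cκ'.comp continuous_fst).continuousOn)
  have hder : ∀ s ∈ T, HasDerivAt (fun s => ∫ x in Ω, (max (u j s x - κ s) 0) ^ 4)
      (∫ x in Ω, 4 * (max (u j s x - κ s) 0) ^ 3 * (ut j s x - -(K₁ * (κ s - K₁)))) s := by
    refine p_A3 Ω hb hΩ.measurableSet T hT (fun s x => (max (u j s x - κ s) 0) ^ 4)
      (fun s x => 4 * (max (u j s x - κ s) 0) ^ 3 * (ut j s x - -(K₁ * (κ s - K₁))))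
      (cF.pow 4) cFt ?_
    intro s hs y hy
    have h1 := (u0_pow 2 (u j s y - κ s)).comp s ((hS.dt j s hs y hy).sub (hκd s))
    have h2 : (((2 : ℕ) : ℝ) + 2) * (max (u j s y - κ s) 0) ^ (2 + 1) *
        (ut j s y - -(K₁ * (κ s - K₁))) =
        4 * (max (u j s y - κ s) 0) ^ 3 * (ut j s y - -(K₁ * (κ s - K₁))) := by
      norm_num
    rw [h2] at h1
    exact h1
  have hle : ∀ s ∈ Icc a b,
      (∫ x in Ω, 4 * (max (u j s x - κ s) 0) ^ 3 * (ut j s x - -(K₁ * (κ s - K₁)))) ≤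
        4 * K₁ * ∫ x in Ω, (max (u j s x - κ s) 0) ^ 4 := by
    intro s hs
    have hsT := hab hs
    refine u0_ineq hΩ hb (hd j) (hS.lap j s hsT) (u0_slice (hS.ct j) hsT)
      (e := fun x => m x - ∑ k, u k s x) (fun y hy => hS.eq j s hsT y hy) ?_
    intro y hy hlt
    have h1 : u j s y ≤ ∑ k, u k s y :=
      Finset.single_le_sum (f := fun k => u k s y) (fun k _ => hS.nonneg k s hsT y hy)
        (Finset.mem_univ j)
    have h2 := hmK y hy
    have h3 := hκK s
    have h4 := hS.nonneg j s hsT y hy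
    have h5 : u j s y * (m y - ∑ k, u k s y) ≤ u j s y * (K₁ - u j s y) :=
      mul_le_mul_of_nonneg_left (by linarith) h4
    nlinarith [sq_nonneg (κ s - K₁), mul_pos (sub_pos.2 hlt) (by linarith : 0 < u j s y + κ s)]
  have h0 : (∫ x in Ω, (max (u j a x - κ a) 0) ^ 4) ≤ 0 := by
    refine setIntegral_nonpos hΩ.measurableSet fun y hy => ?_
    have h1 := hM j a (left_mem_Icc.2 hab') y (subset_closure hy)
    have h2 : κ a = K₁ + |M| := by simp [hκ]
    have h3 := le_abs_self M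
    rw [h2, max_eq_right (by linarith)]
    norm_num
  have hy0 := u0_gron (y := fun s => ∫ x in Ω, (max (u j s x - κ s) 0) ^ 4)
    (fun s hs => hder s (hab hs)) hle h0 t htI
  have htT := hab htI
  have cp : ContinuousOn (fun y => (max (u j t y - κ t) 0) ^ 4) (closure Ω) :=
    (((u0_slice (hS.cu j) htT).sub continuousOn_const).sup continuousOn_const).pow 4
  have hint := p_A2 Ω hb _ cp
  have hnn : ∀ y, 0 ≤ (max (u j t y - κ t) 0) ^ 4 := fun y => by positivity
  have hz : ∫ y in Ω, (max (u j t y - κ t) 0) ^ 4 = 0 :=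
    le_antisymm hy0 (integral_nonneg fun y => hnn y)
  have hae := (integral_eq_zero_iff_of_nonneg_ae (Eventually.of_forall fun y => hnn y) hint).1 hz
  have hEq : EqOn (fun y => (max (u j t y - κ t) 0) ^ 4) (fun _ => (0:ℝ)) Ω :=
    Measure.eqOn_open_of_ae_eq hae hΩ (cp.mono subset_closure) continuousOn_const
  have hEq2 : EqOn (fun y => (max (u j t y - κ t) 0) ^ 4) (fun _ => (0:ℝ)) (closure Ω) :=
    hEq.of_subset_closure cp continuousOn_const subset_closure Subset.rfl
  have h1 : (max (u j t x - κ t) 0) ^ 4 = 0 := hEq2 hx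
  have h2 : max (u j t x - κ t) 0 = 0 := pow_eq_zero_iff (by norm_num) |>.1 h1
  have h3 : u j t x ≤ κ t := by
    have := le_max_left (u j t x - κ t) 0
    linarith
  have h4 : κ t ≤ 2 * K₁ := by
    have h5 : |M| / K₁ ≤ K₁ * (t - a) := by
      have h6 : |M| / K₁ ^ 2 ≤ t - a := by
        have := ht.1
        linarith
      have h7 := mul_le_mul_of_nonneg_left h6 hK1.le
      have h8 : K₁ * (|M| / K₁ ^ 2) = |M| / K₁ := by
        field_simp
      linarith
    have h6 : |M| / K₁ ≤ Real.exp (K₁ * (t - a)) := by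
      have := Real.add_one_le_exp (K₁ * (t - a))
      linarith
    have h6' : |M| ≤ K₁ * Real.exp (K₁ * (t - a)) := by
      rw [div_le_iff₀ hK1] at h6
      linarith
    have h7 : |M| * Real.exp (-(K₁ * (t - a))) ≤ K₁ := by
      rw [Real.exp_neg, ← div_eq_mul_inv, div_le_iff₀ (Real.exp_pos _)]
      exact h6'
    simp only [hκ]
    linarith
  exact h3.trans h4

end Pool.Agent.Lib.MP_d8ef8f_an.Uf
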