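import Pool.Agent.Lib.MP_d8ef8f_an.Uf.Stm
import Pool.Agent.Lib.MP_d8ef8f_an.Gd.A1
import Pool.Agent.Lib.MP_d8ef8f_an.Gd.A2
import Pool.Agent.Lib.MP_d8ef8f_an.Gd.A3

/-!
# U1: the derivative of the integral of the square
-/

set_option autoImplicit false

namespace Pool.Agent.Lib.MP_d8ef8f_an.Uf

open Set Filter Topology MeasureTheory
open Pool.Agent.Lib.MP_d8ef8f_an.Gd Pool.Agent.Lib.MP_d8ef8f_an.Ff

theorem p_U1 : StmU1 := by
  intro n N Ω hO hb d m hm T hT u ut Du lu hs l t ht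
  have hcu : ∀ i, ContinuousOn (u i t) (closure Ω) := by
    intro i
    exact (hs.cu i).comp (f := fun x => (t, x)) (by fun_prop) (fun x hx => ⟨ht, hx⟩)
  have hcl : ContinuousOn (lu l t) (closure Ω) :=
    (hs.cl l).comp (f := fun x => (t, x)) (by fun_prop) (fun x hx => ⟨ht, hx⟩)
  have hcD : ContinuousOn (Du l t) (closure Ω) :=
    (hs.cD l).comp (f := fun x => (t, x)) (by fun_prop) (fun x hx => ⟨ht, hx⟩)
  have hD : HasDerivAt (fun s => ∫ x in Ω, u l s x ^ 2) (∫ x in Ω, 2 * u l t x * ut l t x) t := by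
    refine p_A3 Ω hb hO.measurableSet T hT (fun s x => u l s x ^ 2)
      (fun s x => 2 * u l s x * ut l s x) ((hs.cu l).pow 2)
      ((continuousOn_const.mul (hs.cu l)).mul (hs.ct l)) ?_ t ht
    intro s hsT x hx
    have h1 := (hs.dt l s hsT x hx).pow 2
    refine h1.congr_deriv ?_
    simp
  have hgreen := (hs.lap l t ht).green (u l t) (Du l t) (hs.lap l t ht).c1
  have hself : ∫ x in Ω, inner ℝ (Du l t x) (Du l t x) = ∫ x in Ω, ‖Du l t x‖ ^ 2 := by
    refine integral_congr_ae (Eventually.of_forall fun x => ?_)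
    simp only [real_inner_self_eq_norm_sq]
  have hsum : ContinuousOn (fun x => ∑ k, u k t x) (closure Ω) :=
    continuousOn_finsetSum _ (fun k _ => hcu k)
  have i1 : IntegrableOn (fun x => lu l t x * u l t x) Ω := p_A2 Ω hb _ (hcl.mul (hcu l))
  have i2 : IntegrableOn (fun x => u l t x ^ 2 * (m x - ∑ j, u j t x)) Ω :=
    p_A2 Ω hb _ (((hcu l).pow 2).mul (hm.sub hsum))
  have hEq : ∫ x in Ω, 2 * u l t x * ut l t x
      = ∫ x in Ω, (2 * d l * (lu l t x * u l t x)
        + 2 * (u l t x ^ 2 * (m x - ∑ j, u j t x))) := by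
    refine setIntegral_congr_fun hO.measurableSet fun x hx => ?_
    rw [hs.eq l t ht x (subset_closure hx)]
    ring
  rw [hEq, integral_add (i1.const_mul _) (i2.const_mul _), integral_const_mul,
    integral_const_mul, hgreen, hself] at hD
  refine hD.congr_deriv ?_
  ring

end Pool.Agent.Lib.MP_d8ef8f_an.Uf
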