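import Pool.Agent.Lib.MP_d8ef8f_an.Uf.Stm
import Pool.Agent.Lib.MP_d8ef8f_an.Gd.A2

/-!
# Piece U2: the fast species (static)
-/

set_option autoImplicit false

namespace Pool.Agent.Lib.MP_d8ef8f_an.Uf

open Set Filter Topology MeasureTheory
open Pool.Agent.Lib.MP_d8ef8f_an.Gd Pool.Agent.Lib.MP_d8ef8f_an.Ff

private theorem young (q a b : ℝ) (ha : 0 ≤ a) (hb : 0 ≤ b) (h : q ^ 2 ≤ a * b) :
    2 * q ≤ a + b := by
  refine le_of_abs_le (abs_le_of_sq_le_sq ?_ (by linarith))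
  nlinarith [sq_nonneg (a - b)]

private theorem alg (V s W D P d c R μ G Q1 Q2 σ cb H A B0 Bp Bz E : ℝ) (hV : 0 < V) (hs : 0 < s)
    (hW : 0 ≤ W) (hD : 0 ≤ D) (hP : 0 < P) (hd : 0 < d) (hc : 0 < c) (hc1 : c ≤ 1) (hR : 0 ≤ R)
    (hμ : 0 ≤ μ) (hG : 0 ≤ G) (hQ1 : 0 ≤ Q1) (hQ2 : 0 ≤ Q2) (h1 : s = cb ^ 2 * V + W)
    (h2 : W ≤ P * D) (h3 : |H| ≤ R * V) (h4 : |A| ≤ R * W) (h5 : Bp ^ 2 ≤ W * Q1)
    (h6 : Bz ^ 2 ≤ W * Q2) (h7 : E ^ 2 ≤ G * D) (h8 : (B0 - μ * E) ^ 2 ≤ σ ^ 2 * (W + μ * D))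
    (h9 : 128 * R * P ≤ c * d) :
    c / 16 * (V * d * D / s) - μ ^ 2 / d * (1 + c / 6) * G - 64 / c * (P / d) * (Q1 + Q2)
        - 64 / c * ((P + μ) / d) * σ ^ 2
      ≤ H - V * ((A + 2 * cb * (B0 + Bp - Bz) + cb ^ 2 * H - d * D) / s) := by
  set κ := V * cb / s with hκ
  set X := V * d * D / s with hX
  have hX0 : 0 ≤ X := by positivity
  have hκ2 : κ ^ 2 ≤ V / s := by
    rw [hκ, div_pow, div_le_div_iff₀ (by positivity) hs]
    have h10 : cb ^ 2 * V ≤ s := by linarith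
    have h11 := mul_le_mul_of_nonneg_left h10 (by positivity : 0 ≤ V * s)
    nlinarith [h11]
  have hVs : V / s * D = X / d := by
    rw [hX]
    field_simp
  have hXs : ∀ y : ℝ, V / s * (D * y) = X / d * y := fun y => by
    rw [← mul_assoc, hVs]
  -- the four Young inequalities
  have e1 : 2 * (μ * κ * E) ≤ (1 - c / 8) * X + μ ^ 2 / d * (1 + c / 6) * G := by
    refine young _ _ _ (mul_nonneg (by linarith) hX0) (by positivity) ?_
    have h12 : (μ * κ * E) ^ 2 ≤ μ ^ 2 * (X / d * G) := by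
      have h13 : κ ^ 2 * E ^ 2 ≤ V / s * (G * D) :=
        mul_le_mul hκ2 h7 (sq_nonneg _) (by positivity)
      calc (μ * κ * E) ^ 2 = μ ^ 2 * (κ ^ 2 * E ^ 2) := by ring
        _ ≤ μ ^ 2 * (V / s * (G * D)) := by gcongr
        _ = μ ^ 2 * (X / d * G) := by rw [mul_comm G D, hXs]
    refine h12.trans ?_
    have hcc : 1 ≤ (1 - c / 8) * (1 + c / 6) := by nlinarith
    calc μ ^ 2 * (X / d * G) = 1 * (μ ^ 2 / d * G * X) := by ring
      _ ≤ ((1 - c / 8) * (1 + c / 6)) * (μ ^ 2 / d * G * X) := by gcongr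
      _ = _ := by ring
  have e2 : 2 * (κ * (B0 - μ * E)) ≤ c / 64 * X + 64 / c * ((P + μ) / d) * σ ^ 2 := by
    refine young _ _ _ (by positivity) (by positivity) ?_
    have h13 : κ ^ 2 * (B0 - μ * E) ^ 2 ≤ V / s * (D * ((P + μ) * σ ^ 2)) := by
      refine mul_le_mul hκ2 (h8.trans ?_) (sq_nonneg _) (by positivity)
      have : W + μ * D ≤ (P + μ) * D := by nlinarith
      calc σ ^ 2 * (W + μ * D) ≤ σ ^ 2 * ((P + μ) * D) := by gcongr
        _ = _ := by ring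
    calc (κ * (B0 - μ * E)) ^ 2 = κ ^ 2 * (B0 - μ * E) ^ 2 := by ring
      _ ≤ _ := h13
      _ = X / d * ((P + μ) * σ ^ 2) := hXs _
      _ = _ := by
        field_simp
  have key : ∀ q Q : ℝ, 0 ≤ Q → q ^ 2 ≤ W * Q →
      2 * (κ * q) ≤ c / 64 * X + 64 / c * (P / d) * Q := by
    intro q Q hQ hq
    refine young _ _ _ (by positivity) (by positivity) ?_
    have h13 : κ ^ 2 * q ^ 2 ≤ V / s * (D * (P * Q)) := by
      refine mul_le_mul hκ2 (hq.trans ?_) (sq_nonneg _) (by positivity)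
      calc W * Q ≤ P * D * Q := by gcongr
        _ = _ := by ring
    calc (κ * q) ^ 2 = κ ^ 2 * q ^ 2 := by ring
      _ ≤ _ := h13
      _ = X / d * (P * Q) := hXs _
      _ = _ := by
        field_simp
  have e3 := key Bp Q1 hQ1 h5
  have e4 := key (-Bz) Q2 hQ2 (by rw [neg_sq]; exact h6)
  have e5 : -(c / 64 * X) ≤ (W * H - V * A) / s := by
    have h14 : -(2 * R * V * (P * D)) ≤ W * H - V * A := by
      have h15 := abs_le.1 h3
      have h16 := abs_le.1 h4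
      have h17 : W * (-(R * V)) ≤ W * H := mul_le_mul_of_nonneg_left h15.1 hW
      have h18 : V * A ≤ V * (R * W) := mul_le_mul_of_nonneg_left h16.2 hV.le
      have h19 : 2 * R * V * W ≤ 2 * R * V * (P * D) :=
        mul_le_mul_of_nonneg_left h2 (by positivity)
      nlinarith [h17, h18, h19]
    have h20 : -(2 * R * V * (P * D)) / s ≤ (W * H - V * A) / s :=
      div_le_div_of_nonneg_right h14 hs.le
    refine le_trans ?_ h20
    have h21 : -(2 * R * V * (P * D)) / s = -(2 * R * P / d * X) := by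
      rw [hX]
      field_simp
    rw [h21]
    have h22 : 2 * R * P / d ≤ c / 64 := by
      rw [div_le_div_iff₀ hd (by norm_num)]
      linarith
    have := mul_le_mul_of_nonneg_right h22 hX0
    linarith
  have hRHS : H - V * ((A + 2 * cb * (B0 + Bp - Bz) + cb ^ 2 * H - d * D) / s) =
      (W * H - V * A) / s - 2 * κ * (B0 + Bp - Bz) + X := by
    rw [hκ, hX]
    field_simp
    linear_combination H * h1
  rw [hRHS]
  have e6 : 2 * κ * (B0 + Bp - Bz) = 2 * (μ * κ * E) + 2 * (κ * (B0 - μ * E)) + 2 * (κ * Bp)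
      + 2 * (κ * (-Bz)) := by ring
  rw [e6]
  have e7 : 64 / c * (P / d) * (Q1 + Q2) = 64 / c * (P / d) * Q1 + 64 / c * (P / d) * Q2 := by ring
  rw [e7]
  linarith

private theorem disc {a b c : ℝ} (h : ∀ t : ℝ, 0 ≤ a + 2 * t * b + t ^ 2 * c) :
    b ^ 2 ≤ a * c := by
  have h1 : discrim c (2 * b) a ≤ 0 := discrim_le_zero fun t => by
    have := h t
    nlinarith
  rw [discrim] at h1
  nlinarith

private theorem sum3 {n : ℕ} {Ω : Set (Sp n)} (hm : MeasurableSet Ω) {f g h F : Sp n → ℝ}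
    (hf : IntegrableOn f Ω) (hg : IntegrableOn g Ω) (hh : IntegrableOn h Ω)
    (e : ∀ x ∈ Ω, f x + g x + h x = F x) :
    (∫ x in Ω, f x) + (∫ x in Ω, g x) + (∫ x in Ω, h x) = ∫ x in Ω, F x := by
  have e1 : (∫ x in Ω, f x) + (∫ x in Ω, g x) = ∫ x in Ω, (f x + g x) :=
    (integral_add hf hg).symm
  have e2 : (∫ x in Ω, (f x + g x)) + (∫ x in Ω, h x) = ∫ x in Ω, (f x + g x + h x) :=
    (integral_add (hf.add hg) hh).symm
  rw [e1, e2]
  exact setIntegral_congr_fun hm fun x hx => e x hx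

private theorem cs {n : ℕ} {Ω : Set (Sp n)} (hm : MeasurableSet Ω)
    (hb : Bornology.IsBounded Ω) {f g : Sp n → ℝ}
    (hf : ContinuousOn f (closure Ω)) (hg : ContinuousOn g (closure Ω)) :
    (∫ x in Ω, f x * g x) ^ 2 ≤ (∫ x in Ω, f x ^ 2) * ∫ x in Ω, g x ^ 2 := by
  refine disc fun t => ?_
  have i1 : IntegrableOn (fun x => f x ^ 2) Ω := p_A2 Ω hb _ (hf.pow 2)
  have i2 : IntegrableOn (fun x => 2 * t * (f x * g x)) Ω :=
    p_A2 Ω hb _ (continuousOn_const.mul (hf.mul hg))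
  have i3 : IntegrableOn (fun x => t ^ 2 * g x ^ 2) Ω :=
    p_A2 Ω hb _ (continuousOn_const.mul (hg.pow 2))
  have e : (∫ x in Ω, f x ^ 2) + 2 * t * (∫ x in Ω, f x * g x) + t ^ 2 * (∫ x in Ω, g x ^ 2) =
      ∫ x in Ω, (f x + t * g x) ^ 2 := by
    rw [← integral_const_mul, ← integral_const_mul]
    exact sum3 hm i1 i2 i3 fun x _ => by ring
  rw [e]
  exact integral_nonneg fun x => sq_nonneg _

private theorem csv {n : ℕ} {Ω : Set (Sp n)} (hm : MeasurableSet Ω)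
    (hb : Bornology.IsBounded Ω) {f g : Sp n → Sp n}
    (hf : ContinuousOn f (closure Ω)) (hg : ContinuousOn g (closure Ω)) :
    (∫ x in Ω, inner ℝ (f x) (g x)) ^ 2 ≤ (∫ x in Ω, ‖f x‖ ^ 2) * ∫ x in Ω, ‖g x‖ ^ 2 := by
  refine disc fun t => ?_
  have i1 : IntegrableOn (fun x => ‖f x‖ ^ 2) Ω := p_A2 Ω hb _ (hf.norm.pow 2)
  have i2 : IntegrableOn (fun x => 2 * t * (inner ℝ (f x) (g x) : ℝ)) Ω :=
    p_A2 Ω hb _ (continuousOn_const.mul (hf.inner hg))
  have i3 : IntegrableOn (fun x => t ^ 2 * ‖g x‖ ^ 2) Ω :=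
    p_A2 Ω hb _ (continuousOn_const.mul (hg.norm.pow 2))
  have e : (∫ x in Ω, ‖f x‖ ^ 2) + 2 * t * (∫ x in Ω, (inner ℝ (f x) (g x) : ℝ))
      + t ^ 2 * (∫ x in Ω, ‖g x‖ ^ 2) = ∫ x in Ω, ‖f x + t • g x‖ ^ 2 := by
    rw [← integral_const_mul, ← integral_const_mul]
    refine sum3 hm i1 i2 i3 fun x _ => ?_
    rw [norm_add_sq_real, inner_smul_right, norm_smul, mul_pow, Real.norm_eq_abs, sq_abs]
    ring
  rw [e]
  exact integral_nonneg fun x => sq_nonneg _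

theorem p_U2 : StmU2 := by
  intro n Ω P hDom u Du hu hs m φ Dφ μ σ hm hφ hμ hEL p z h hp hz hh hhe R hR c d hc hc1 hd h9
  have hb := hDom.bdd
  have hmeas := hDom.isOpen.measurableSet
  have hfin : volume Ω ≠ ⊤ := (hb.measure_lt_top).ne
  have hV : 0 < vol Ω := by
    refine ENNReal.toReal_pos (hDom.isOpen.measure_pos _ hDom.nonempty).ne' ?_
    exact hfin
  have hconst : ∀ r : ℝ, ∫ _ in Ω, r = r * vol Ω := by
    intro r
    rw [setIntegral_const, smul_eq_mul, mul_comm]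
    rfl
  obtain ⟨x0, hx0⟩ := hDom.nonempty
  have hR0 : 0 ≤ R := (abs_nonneg _).trans (hR x0 (subset_closure hx0))
  set V := vol Ω with hVdef
  set cb : ℝ := (∫ x in Ω, u x) / V with hcb
  set w : Sp n → ℝ := fun x => u x - cb with hw
  have hwc : ContinuousOn w (closure Ω) := hu.cont.sub continuousOn_const
  have hwC1 : C1 Ω w Du := by
    refine ⟨hwc, hu.contD, fun x hx => ?_⟩
    have h1 := hu.grad x hx
    rw [hasGradientAt_iff_hasFDerivAt] at h1 ⊢
    simpa [hw] using h1.sub_const cb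
  have iu : IntegrableOn u Ω := p_A2 Ω hb _ hu.cont
  have iw : IntegrableOn w Ω := p_A2 Ω hb _ hwc
  have iw2 : IntegrableOn (fun x => w x ^ 2) Ω := p_A2 Ω hb _ (hwc.pow 2)
  have ih : IntegrableOn h Ω := p_A2 Ω hb _ hh
  have hw0 : (∫ x in Ω, w x) = 0 := by
    rw [hw, integral_sub iu (integrableOn_const hfin), hconst, hcb]
    field_simp
    ring
  -- quadratic expansions around the mean
  have hexp : ∀ r : ℝ, (∫ x in Ω, (w x + r) ^ 2) = (∫ x in Ω, w x ^ 2) + r ^ 2 * V := by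
    intro r
    have e : (∫ x in Ω, (w x + r) ^ 2) =
        (∫ x in Ω, w x ^ 2) + (2 * r) * (∫ x in Ω, w x) + ∫ _ in Ω, r ^ 2 := by
      rw [← integral_const_mul]
      exact (sum3 hmeas iw2 (iw.const_mul _) (integrableOn_const hfin) fun x _ => by ring).symm
    rw [e, hw0, hconst]
    ring
  have h1 : (∫ x in Ω, u x ^ 2) = cb ^ 2 * V + ∫ x in Ω, w x ^ 2 := by
    have e := hexp cb
    have e' : (∫ x in Ω, (w x + cb) ^ 2) = ∫ x in Ω, u x ^ 2 := by
      refine integral_congr_ae (Eventually.of_forall fun x => ?_)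
      simp only [hw]
      ring
    rw [← e', e]
    ring
  have h2 : (∫ x in Ω, w x ^ 2) ≤ P * ∫ x in Ω, ‖Du x‖ ^ 2 := by
    obtain ⟨c', hc'⟩ := hDom.poinc u Du hu
    refine le_trans ?_ hc'
    have e := hexp (cb - c')
    have e' : (∫ x in Ω, (w x + (cb - c')) ^ 2) = ∫ x in Ω, (u x - c') ^ 2 := by
      refine integral_congr_ae (Eventually.of_forall fun x => ?_)
      simp only [hw]
      ring
    rw [← e', e]
    have : 0 ≤ (cb - c') ^ 2 * V := by positivity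
    linarith
  have hW0 : 0 ≤ ∫ x in Ω, w x ^ 2 := integral_nonneg fun x => sq_nonneg _
  have h3 : |∫ x in Ω, h x| ≤ R * V := by
    have := norm_setIntegral_le_of_norm_le_const (μ := volume) (f := h) (C := R)
      (hb.measure_lt_top)
      (fun x hx => by rw [Real.norm_eq_abs]; exact hR x (subset_closure hx))
    rw [Real.norm_eq_abs] at this
    exact this
  have h4 : |∫ x in Ω, w x ^ 2 * h x| ≤ R * ∫ x in Ω, w x ^ 2 := by
    rw [← integral_const_mul]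
    refine (abs_integral_le_integral_abs).trans ?_
    refine setIntegral_mono_on ((p_A2 Ω hb _ ((hwc.pow 2).mul hh)).abs) (iw2.const_mul _) hmeas ?_
    intro x hx
    rw [abs_mul, abs_of_nonneg (sq_nonneg (w x)), mul_comm]
    exact mul_le_mul_of_nonneg_right (hR x (subset_closure hx)) (sq_nonneg _)
  have h5 := cs hmeas hb hwc hp
  have h6 := cs hmeas hb hwc hz
  have h7 := csv hmeas hb hφ.contD hu.contD
  have h8 := hEL w Du hwC1
  have hmf : ContinuousOn (fun x => m x - φ x) (closure Ω) := hm.sub hφ.cont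
  have hB : (∫ x in Ω, w x * h x) = (∫ x in Ω, (m x - φ x) * w x) + (∫ x in Ω, w x * p x)
      - ∫ x in Ω, w x * z x := by
    have k1 : IntegrableOn (fun x => (m x - φ x) * w x) Ω := p_A2 Ω hb _ (hmf.mul hwc)
    have k2 : IntegrableOn (fun x => w x * p x) Ω := p_A2 Ω hb _ (hwc.mul hp)
    have k3 : IntegrableOn (fun x => -(w x * z x)) Ω := p_A2 Ω hb _ (hwc.mul hz).neg
    rw [sub_eq_add_neg, ← integral_neg]
    refine (sum3 hmeas k1 k2 k3 fun x hx => ?_).symm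
    rw [hhe x (subset_closure hx)]
    ring
  have hA : (∫ x in Ω, u x ^ 2 * h x) = (∫ x in Ω, w x ^ 2 * h x)
      + 2 * cb * (∫ x in Ω, w x * h x) + cb ^ 2 * ∫ x in Ω, h x := by
    have j1 : IntegrableOn (fun x => w x ^ 2 * h x) Ω := p_A2 Ω hb _ ((hwc.pow 2).mul hh)
    have j2 : IntegrableOn (fun x => 2 * cb * (w x * h x)) Ω :=
      p_A2 Ω hb _ (continuousOn_const.mul (hwc.mul hh))
    have j3 : IntegrableOn (fun x => cb ^ 2 * h x) Ω := p_A2 Ω hb _ (continuousOn_const.mul hh)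
    rw [← integral_const_mul, ← integral_const_mul]
    refine (sum3 hmeas j1 j2 j3 fun x _ => ?_).symm
    simp only [hw]
    ring
  have := alg V (∫ x in Ω, u x ^ 2) (∫ x in Ω, w x ^ 2) (∫ x in Ω, ‖Du x‖ ^ 2) P d c R μ
    (∫ x in Ω, ‖Dφ x‖ ^ 2) (∫ x in Ω, p x ^ 2) (∫ x in Ω, z x ^ 2) σ cb (∫ x in Ω, h x)
    (∫ x in Ω, w x ^ 2 * h x) (∫ x in Ω, (m x - φ x) * w x) (∫ x in Ω, w x * p x)
    (∫ x in Ω, w x * z x) (∫ x in Ω, inner ℝ (Dφ x) (Du x)) hV hs hW0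
    (integral_nonneg fun x => sq_nonneg _) hDom.hP hd hc hc1 hR0 hμ
    (integral_nonneg fun x => sq_nonneg _) (integral_nonneg fun x => sq_nonneg _)
    (integral_nonneg fun x => sq_nonneg _) h1 h2 h3 h4 h5 h6 h7 h8 h9
  rw [hA, hB]
  exact this

end Pool.Agent.Lib.MP_d8ef8f_an.Uf
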