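import Pool.Agent.Lib.MP_d8ef8f_an.Uf.Stm
import Pool.Agent.Lib.MP_d8ef8f_an.Ff.F8
import Pool.Agent.Lib.MP_d8ef8f_an.Gd.A2

/-!
# Piece U3: the weight as an approximate minimiser
-/

set_option autoImplicit false

namespace Pool.Agent.Lib.MP_d8ef8f_an.Uf

open Set Filter Topology MeasureTheory
open Pool.Agent.Lib.MP_d8ef8f_an.Gd Pool.Agent.Lib.MP_d8ef8f_an.Ff

/-! ### The truncation -/

/-- derivative of the truncation -/
private noncomputable def wt (m₀ t : ℝ) : ℝ := max 0 (min 1 (2 - |t| / m₀))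

/-- the truncation -/
private noncomputable def Tr (m₀ s : ℝ) : ℝ := ∫ t in (0:ℝ)..s, wt m₀ t

private lemma wt_cont (m₀ : ℝ) : Continuous (wt m₀) := by
  unfold wt
  exact continuous_const.max
    (continuous_const.min (continuous_const.sub (continuous_abs.div_const _)))

private lemma wt_nonneg (m₀ t : ℝ) : 0 ≤ wt m₀ t := le_max_left _ _

private lemma wt_le (m₀ t : ℝ) : wt m₀ t ≤ 1 := max_le zero_le_one (min_le_left _ _)

private lemma Tr_deriv (m₀ s : ℝ) : HasDerivAt (Tr m₀) (wt m₀ s) s :=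
  ((wt_cont m₀).integral_hasStrictDerivAt 0 s).hasDerivAt

private lemma Tr_sub (m₀ a s : ℝ) : Tr m₀ s - Tr m₀ a = ∫ t in a..s, wt m₀ t := by
  unfold Tr
  exact intervalIntegral.integral_interval_sub_left ((wt_cont m₀).intervalIntegrable _ _)
    ((wt_cont m₀).intervalIntegrable _ _)

private lemma Tr_lip (m₀ a s : ℝ) : |Tr m₀ s - Tr m₀ a| ≤ |s - a| := by
  rw [Tr_sub]
  have h := intervalIntegral.norm_integral_le_of_norm_le_const (a := a) (b := s) (f := wt m₀)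
    (C := 1) (fun t _ => by
      rw [Real.norm_eq_abs, abs_of_nonneg (wt_nonneg _ _)]
      exact wt_le _ _)
  rw [Real.norm_eq_abs, one_mul] at h
  exact h

private lemma Tr_id {m₀ a : ℝ} (h0 : 0 < m₀) (ha : |a| ≤ m₀) : Tr m₀ a = a := by
  unfold Tr
  have h : ∫ t in (0:ℝ)..a, wt m₀ t = ∫ _ in (0:ℝ)..a, (1:ℝ) := by
    apply intervalIntegral.integral_congr
    intro t ht
    have ht2 : |t| ≤ m₀ := by
      have h3 := abs_sub_left_of_mem_uIcc ht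
      rw [sub_zero, sub_zero] at h3
      exact h3.trans ha
    have h4 : 1 ≤ 2 - |t| / m₀ := by
      have h5 : |t| / m₀ ≤ 1 := (div_le_one h0).2 ht2
      linarith
    simp only [wt]
    rw [min_eq_left h4, max_eq_right zero_le_one]
  rw [h, intervalIntegral.integral_const]
  simp

private lemma Tr_bd {m₀ : ℝ} (h0 : 0 < m₀) (s : ℝ) : |Tr m₀ s| ≤ 2 * m₀ := by
  have h1 : ∀ s, |s| ≤ 2 * m₀ → |Tr m₀ s| ≤ 2 * m₀ := by
    intro s hs
    have h := Tr_lip m₀ 0 s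
    have h2 : Tr m₀ 0 = 0 := by
      unfold Tr
      exact intervalIntegral.integral_same
    rw [h2, sub_zero, sub_zero] at h
    exact h.trans hs
  have hz : ∀ t, 2 * m₀ ≤ |t| → wt m₀ t = 0 := by
    intro t ht
    have h3 : 2 - |t| / m₀ ≤ 0 := by
      have h4 : 2 ≤ |t| / m₀ := (le_div_iff₀ h0).2 ht
      linarith
    unfold wt
    rw [max_eq_left]
    exact (min_le_right _ _).trans h3
  have hzero : ∀ a s, (∀ t ∈ uIcc a s, 2 * m₀ ≤ |t|) → Tr m₀ s = Tr m₀ a := by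
    intro a s h
    have h2 : Tr m₀ s - Tr m₀ a = 0 := by
      rw [Tr_sub]
      have h3 : ∫ t in a..s, wt m₀ t = ∫ _ in a..s, (0:ℝ) := by
        apply intervalIntegral.integral_congr
        intro t ht
        exact hz t (h t ht)
      rw [h3]
      simp
    exact sub_eq_zero.1 h2
  rcases le_or_gt s (2 * m₀) with hs | hs
  · rcases le_or_gt (-(2 * m₀)) s with hs2 | hs2
    · exact h1 s (abs_le.2 ⟨hs2, hs⟩)
    · rw [hzero (-(2 * m₀)) s]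
      · refine h1 _ ?_
        rw [abs_neg, abs_of_pos (by positivity)]
      · intro t ht
        rw [uIcc_of_ge hs2.le] at ht
        have h5 := neg_abs_le t
        have h6 := ht.2
        linarith [le_abs_self t, neg_le_abs t]
  · rw [hzero (2 * m₀) s]
    · refine h1 _ ?_
      rw [abs_of_pos (by positivity)]
    · intro t ht
      rw [uIcc_of_le hs.le] at ht
      exact ht.1.trans (le_abs_self t)

private lemma Tr_near {m₀ : ℝ} (h0 : 0 < m₀) (s a : ℝ) (ha : |a| ≤ m₀) :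
    (Tr m₀ s - a) ^ 2 ≤ (s - a) ^ 2 := by
  have h := Tr_lip m₀ a s
  rw [Tr_id h0 ha] at h
  exact sq_le_sq.2 h

private lemma C1_Tr {n : ℕ} {Ω : Set (Sp n)} {φ : Sp n → ℝ} {Dφ : Sp n → Sp n}
    (h : C1 Ω φ Dφ) (m₀ : ℝ) :
    C1 Ω (fun x => Tr m₀ (φ x)) (fun x => wt m₀ (φ x) • Dφ x) := by
  refine ⟨?_, ?_, ?_⟩
  · exact (continuous_iff_continuousAt.2 fun s =>
      (Tr_deriv m₀ s).continuousAt).comp_continuousOn h.cont
  · exact ((wt_cont m₀).comp_continuousOn h.cont).smul h.contD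
  · intro x hx
    have h1 := h.grad x hx
    rw [hasGradientAt_iff_hasFDerivAt] at h1 ⊢
    have h2 := (Tr_deriv m₀ (φ x)).comp_hasFDerivAt x h1
    rw [map_smul]
    exact h2

private lemma C1_add {n : ℕ} {Ω : Set (Sp n)} {φ ψ : Sp n → ℝ} {Dφ Dψ : Sp n → Sp n}
    (hφ : C1 Ω φ Dφ) (hψ : C1 Ω ψ Dψ) (r : ℝ) :
    C1 Ω (fun x => φ x + r * ψ x) (fun x => Dφ x + r • Dψ x) := by
  refine ⟨?_, ?_, ?_⟩
  · exact hφ.cont.add (continuousOn_const.mul hψ.cont)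
  · exact hφ.contD.add (hψ.contD.const_smul r)
  · intro x hx
    have h1 := hφ.grad x hx
    have h2 := hψ.grad x hx
    rw [hasGradientAt_iff_hasFDerivAt] at h1 h2 ⊢
    rw [map_add, map_smul]
    exact h1.add (h2.const_mul r)

/-! ### Integrals -/

private lemma int3 {n : ℕ} {Ω : Set (Sp n)} (hb : Bornology.IsBounded Ω) {f g h : Sp n → ℝ}
    (hf : ContinuousOn f (closure Ω)) (hg : ContinuousOn g (closure Ω))
    (hh : ContinuousOn h (closure Ω)) (a b : ℝ) :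
    (∫ x in Ω, (f x + a * g x + b * h x)) =
      (∫ x in Ω, f x) + a * (∫ x in Ω, g x) + b * ∫ x in Ω, h x := by
  have hf' : IntegrableOn f Ω := p_A2 Ω hb f hf
  have hg' : IntegrableOn g Ω := p_A2 Ω hb g hg
  have hh' : IntegrableOn h Ω := p_A2 Ω hb h hh
  have e1 : (∫ x in Ω, (f x + a * g x + b * h x)) =
      (∫ x in Ω, (f x + a * g x)) + ∫ x in Ω, b * h x :=
    integral_add (f := fun x => f x + a * g x) (hf'.add (hg'.const_mul a)) (hh'.const_mul b)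
  have e2 : (∫ x in Ω, (f x + a * g x)) = (∫ x in Ω, f x) + ∫ x in Ω, a * g x :=
    integral_add hf' (hg'.const_mul a)
  rw [e1, e2, integral_const_mul, integral_const_mul]

/-- Cauchy-Schwarz for functions -/
private lemma cs1 {n : ℕ} {Ω : Set (Sp n)} (hb : Bornology.IsBounded Ω) {f g : Sp n → ℝ}
    (hf : ContinuousOn f (closure Ω)) (hg : ContinuousOn g (closure Ω)) :
    (∫ x in Ω, f x * g x) ^ 2 ≤ (∫ x in Ω, f x ^ 2) * ∫ x in Ω, g x ^ 2 := by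
  have h : ∀ r : ℝ, 0 ≤ (∫ x in Ω, g x ^ 2) * (r * r) + (2 * ∫ x in Ω, f x * g x) * r +
      ∫ x in Ω, f x ^ 2 := by
    intro r
    have h1 := int3 hb (f := fun x => f x ^ 2) (g := fun x => f x * g x) (h := fun x => g x ^ 2)
      (hf.pow 2) (hf.mul hg) (hg.pow 2) (2 * r) (r * r)
    have h2 : 0 ≤ ∫ x in Ω, (f x ^ 2 + 2 * r * (f x * g x) + r * r * g x ^ 2) := by
      apply integral_nonneg
      intro x
      have h3 : f x ^ 2 + 2 * r * (f x * g x) + r * r * g x ^ 2 = (f x + r * g x) ^ 2 := by ring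
      simp only [Pi.zero_apply]
      rw [h3]
      positivity
    rw [h1] at h2
    linarith
  have h4 := discrim_le_zero h
  rw [discrim] at h4
  nlinarith [h4]

/-- Cauchy-Schwarz for vector fields -/
private lemma cs2 {n : ℕ} {Ω : Set (Sp n)} (hb : Bornology.IsBounded Ω) {F G : Sp n → Sp n}
    (hF : ContinuousOn F (closure Ω)) (hG : ContinuousOn G (closure Ω)) :
    (∫ x in Ω, inner ℝ (F x) (G x)) ^ 2 ≤ (∫ x in Ω, ‖F x‖ ^ 2) * ∫ x in Ω, ‖G x‖ ^ 2 := by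
  have h : ∀ r : ℝ, 0 ≤ (∫ x in Ω, ‖G x‖ ^ 2) * (r * r) + (2 * ∫ x in Ω, inner ℝ (F x) (G x)) * r +
      ∫ x in Ω, ‖F x‖ ^ 2 := by
    intro r
    have h1 := int3 hb (f := fun x => ‖F x‖ ^ 2) (g := fun x => inner ℝ (F x) (G x))
      (h := fun x => ‖G x‖ ^ 2) (hF.norm.pow 2) (hF.inner hG) (hG.norm.pow 2) (2 * r) (r * r)
    have h2 : 0 ≤ ∫ x in Ω, (‖F x‖ ^ 2 + 2 * r * inner ℝ (F x) (G x) + r * r * ‖G x‖ ^ 2) := by
      apply integral_nonneg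
      intro x
      have h3 : ‖F x‖ ^ 2 + 2 * r * inner ℝ (F x) (G x) + r * r * ‖G x‖ ^ 2 =
          ‖F x + r • G x‖ ^ 2 := by
        rw [norm_add_sq_real, inner_smul_right, norm_smul, mul_pow, Real.norm_eq_abs, sq_abs]
        ring
      simp only [Pi.zero_apply]
      rw [h3]
      positivity
    rw [h1] at h2
    linarith
  have h4 := discrim_le_zero h
  rw [discrim] at h4
  nlinarith [h4]

/-- the quadratic functional -/
private noncomputable def J {n : ℕ} (Ω : Set (Sp n)) (m : Sp n → ℝ) (μ : ℝ) (φ : Sp n → ℝ)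
    (Dφ : Sp n → Sp n) : ℝ := (∫ x in Ω, (φ x - m x) ^ 2) + μ * ∫ x in Ω, ‖Dφ x‖ ^ 2

private lemma J_nonneg {n : ℕ} (Ω : Set (Sp n)) (m : Sp n → ℝ) {μ : ℝ} (hμ : 0 < μ)
    (φ : Sp n → ℝ) (Dφ : Sp n → Sp n) : 0 ≤ J Ω m μ φ Dφ := by
  unfold J
  have h1 : 0 ≤ ∫ x in Ω, (φ x - m x) ^ 2 := integral_nonneg fun x => sq_nonneg _
  have h2 : 0 ≤ ∫ x in Ω, ‖Dφ x‖ ^ 2 := integral_nonneg fun x => by positivity
  positivity

private lemma J_add {n : ℕ} {Ω : Set (Sp n)} (hb : Bornology.IsBounded Ω) {m : Sp n → ℝ}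
    (hm : ContinuousOn m (closure Ω)) (μ : ℝ) {φ ψ : Sp n → ℝ} {Dφ Dψ : Sp n → Sp n}
    (hφ : C1 Ω φ Dφ) (hψ : C1 Ω ψ Dψ) (r : ℝ) :
    J Ω m μ (fun x => φ x + r * ψ x) (fun x => Dφ x + r • Dψ x) =
      J Ω m μ φ Dφ - 2 * r * ((∫ x in Ω, (m x - φ x) * ψ x) -
        μ * ∫ x in Ω, inner ℝ (Dφ x) (Dψ x)) +
        r * r * ((∫ x in Ω, ψ x ^ 2) + μ * ∫ x in Ω, ‖Dψ x‖ ^ 2) := by
  unfold J
  have h1 := int3 hb (f := fun x => (φ x - m x) ^ 2) (g := fun x => (m x - φ x) * ψ x)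
    (h := fun x => ψ x ^ 2) ((hφ.cont.sub hm).pow 2) ((hm.sub hφ.cont).mul hψ.cont)
    (hψ.cont.pow 2) (-(2 * r)) (r * r)
  have h2 := int3 hb (f := fun x => ‖Dφ x‖ ^ 2) (g := fun x => inner ℝ (Dφ x) (Dψ x))
    (h := fun x => ‖Dψ x‖ ^ 2) (hφ.contD.norm.pow 2) (hφ.contD.inner hψ.contD)
    (hψ.contD.norm.pow 2) (2 * r) (r * r)
  have e1 : (∫ x in Ω, (φ x + r * ψ x - m x) ^ 2) =
      ∫ x in Ω, ((φ x - m x) ^ 2 + -(2 * r) * ((m x - φ x) * ψ x) + r * r * ψ x ^ 2) := by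
    congr 1
    funext x
    ring
  have e2 : (∫ x in Ω, ‖Dφ x + r • Dψ x‖ ^ 2) =
      ∫ x in Ω, (‖Dφ x‖ ^ 2 + 2 * r * inner ℝ (Dφ x) (Dψ x) + r * r * ‖Dψ x‖ ^ 2) := by
    congr 1
    funext x
    rw [norm_add_sq_real, inner_smul_right, norm_smul, mul_pow, Real.norm_eq_abs, sq_abs]
    ring
  rw [e1, e2, h1, h2]
  ring

private lemma J_Tr {n : ℕ} {Ω : Set (Sp n)} (hO : IsOpen Ω) (hb : Bornology.IsBounded Ω)
    {m : Sp n → ℝ} (hm : ContinuousOn m (closure Ω)) {m₀ : ℝ} (h0 : 0 < m₀)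
    (hmb : ∀ x ∈ closure Ω, |m x| ≤ m₀) {μ : ℝ} (hμ : 0 < μ) {φ : Sp n → ℝ} {Dφ : Sp n → Sp n}
    (hφ : C1 Ω φ Dφ) :
    J Ω m μ (fun x => Tr m₀ (φ x)) (fun x => wt m₀ (φ x) • Dφ x) ≤ J Ω m μ φ Dφ := by
  have hT := C1_Tr hφ m₀
  unfold J
  have h1 : (∫ x in Ω, (Tr m₀ (φ x) - m x) ^ 2) ≤ ∫ x in Ω, (φ x - m x) ^ 2 := by
    refine setIntegral_mono_on (p_A2 Ω hb _ ((hT.cont.sub hm).pow 2))
      (p_A2 Ω hb _ ((hφ.cont.sub hm).pow 2)) hO.measurableSet ?_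
    intro x hx
    exact Tr_near h0 _ _ (hmb x (subset_closure hx))
  have h2 : (∫ x in Ω, ‖wt m₀ (φ x) • Dφ x‖ ^ 2) ≤ ∫ x in Ω, ‖Dφ x‖ ^ 2 := by
    refine setIntegral_mono_on (p_A2 Ω hb _ (hT.contD.norm.pow 2))
      (p_A2 Ω hb _ (hφ.contD.norm.pow 2)) hO.measurableSet ?_
    intro x hx
    have h3 : ‖wt m₀ (φ x) • Dφ x‖ ≤ ‖Dφ x‖ := by
      rw [norm_smul, Real.norm_eq_abs, abs_of_nonneg (wt_nonneg _ _)]
      exact mul_le_of_le_one_left (norm_nonneg _) (wt_le _ _)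
    exact pow_le_pow_left₀ (norm_nonneg _) h3 2
  have h4 := mul_le_mul_of_nonneg_left h2 hμ.le
  linarith

/-- near-minimisers -/
private lemma near {n : ℕ} {Ω : Set (Sp n)} (hO : IsOpen Ω) (hb : Bornology.IsBounded Ω)
    {m : Sp n → ℝ} (hm : ContinuousOn m (closure Ω)) {m₀ : ℝ} (h0 : 0 < m₀)
    (hmb : ∀ x ∈ closure Ω, |m x| ≤ m₀) {μ : ℝ} (hμ : 0 < μ) (σ : ℝ) (hσ : 0 < σ) :
    ∃ (φ : Sp n → ℝ) (Dφ : Sp n → Sp n), C1 Ω φ Dφ ∧ (∀ x, |φ x| ≤ 2 * m₀) ∧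
      EL Ω m φ Dφ μ σ := by
  set S : Set ℝ := {y | ∃ (φ : Sp n → ℝ) (Dφ : Sp n → Sp n), C1 Ω φ Dφ ∧ y = J Ω m μ φ Dφ} with hS
  have hne : S.Nonempty := by
    refine ⟨J Ω m μ (fun _ => 0) (fun _ => 0), _, _, ⟨continuousOn_const, continuousOn_const, ?_⟩, rfl⟩
    intro x _
    rw [hasGradientAt_iff_hasFDerivAt, map_zero]
    exact hasFDerivAt_const _ _
  have hbd : BddBelow S := by
    refine ⟨0, ?_⟩
    rintro y ⟨φ, Dφ, -, rfl⟩
    exact J_nonneg Ω m hμ φ Dφ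
  have hlt : sInf S < sInf S + σ ^ 2 := by
    have : 0 < σ ^ 2 := by positivity
    linarith
  obtain ⟨y, ⟨φ, Dφ, hφ, rfl⟩, hy⟩ := exists_lt_of_csInf_lt hne hlt
  refine ⟨fun x => Tr m₀ (φ x), fun x => wt m₀ (φ x) • Dφ x, C1_Tr hφ m₀, fun x => Tr_bd h0 _, ?_⟩
  intro ψ Dψ hψ
  have hJ := J_Tr hO hb hm h0 hmb hμ hφ
  set B := (∫ x in Ω, (m x - Tr m₀ (φ x)) * ψ x) -
    μ * ∫ x in Ω, inner ℝ (wt m₀ (φ x) • Dφ x) (Dψ x) with hB
  set q := (∫ x in Ω, ψ x ^ 2) + μ * ∫ x in Ω, ‖Dψ x‖ ^ 2 with hq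
  have h : ∀ r : ℝ, 0 ≤ q * (r * r) + (-(2 * B)) * r + σ ^ 2 := by
    intro r
    have h1 := J_add hb hm μ (C1_Tr hφ m₀) hψ r
    rw [← hB, ← hq] at h1
    have h2 : sInf S ≤ J Ω m μ (fun x => Tr m₀ (φ x) + r * ψ x)
        (fun x => wt m₀ (φ x) • Dφ x + r • Dψ x) :=
      csInf_le hbd ⟨_, _, C1_add (C1_Tr hφ m₀) hψ r, rfl⟩
    rw [h1] at h2
    linarith
  have h4 := discrim_le_zero h
  rw [discrim] at h4
  nlinarith [h4]

theorem p_U3 : StmU3 := by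
  intro n Ω P hD m hm hne m₀ h0 hmb μ hμ
  have hO := hD.isOpen
  have hb := hD.bdd
  obtain ⟨ψ, Dψ, hψ, hψ0, hψm⟩ := p_F8 Ω hO hD.nonempty hb m hm hne
  set A := ∫ x in Ω, ψ x ^ 2 with hA
  set B := ∫ x in Ω, ‖Dψ x‖ ^ 2 with hB
  have hA0 : 0 ≤ A := integral_nonneg fun x => sq_nonneg _
  have hB0 : 0 ≤ B := integral_nonneg fun x => by positivity
  have hq0 : 0 ≤ A + μ * B := by positivity
  set K := √P * √A + μ * √B with hK
  have hK0 : 0 ≤ K := by positivity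
  refine ⟨(1 / (2 * (K + 1))) ^ 2, by positivity, ?_⟩
  intro σ hσ
  set σ' := min σ (1 / (2 * √(A + μ * B) + 1)) with hσ'
  have hs0 : 0 < σ' := lt_min hσ (by positivity)
  obtain ⟨φ, Dφ, hφ, hφb, hEL⟩ := near hO hb hm h0 hmb hμ σ' hs0
  refine ⟨φ, Dφ, hφ, fun x _ => hφb x, ?_, ?_⟩
  · set g := ∫ x in Ω, ‖Dφ x‖ ^ 2 with hg
    have hg0 : 0 ≤ g := integral_nonneg fun x => by positivity
    obtain ⟨c, hc⟩ := hD.poinc φ Dφ hφ
    rw [← hg] at hc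
    -- the three terms
    have hcont : ContinuousOn (fun x => φ x - c) (closure Ω) := hφ.cont.sub continuousOn_const
    have t1 : |∫ x in Ω, (φ x - c) * ψ x| ≤ √g * (√P * √A) := by
      have h1 := cs1 hb hcont hψ.cont
      have h2 : (∫ x in Ω, (φ x - c) * ψ x) ^ 2 ≤ g * (P * A) := by
        refine h1.trans ?_
        rw [← hA]
        calc (∫ x in Ω, (φ x - c) ^ 2) * A ≤ (P * g) * A := mul_le_mul_of_nonneg_right hc hA0
          _ = g * (P * A) := by ring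
      have h3 := Real.abs_le_sqrt h2
      rwa [Real.sqrt_mul hg0, Real.sqrt_mul hD.hP.le] at h3
    have t2 : |∫ x in Ω, inner ℝ (Dφ x) (Dψ x)| ≤ √g * √B := by
      have h3 := Real.abs_le_sqrt (cs2 hb hφ.contD hψ.contD)
      rwa [← hg, ← hB, Real.sqrt_mul hg0] at h3
    have t3 : |(∫ x in Ω, (m x - φ x) * ψ x) - μ * ∫ x in Ω, inner ℝ (Dφ x) (Dψ x)| ≤ 1 / 2 := by
      have h1 := hEL ψ Dψ hψ
      rw [← hA, ← hB] at h1
      have h3 := Real.abs_le_sqrt h1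
      rw [Real.sqrt_mul (sq_nonneg _), Real.sqrt_sq hs0.le] at h3
      refine h3.trans ?_
      have h4 : σ' ≤ 1 / (2 * √(A + μ * B) + 1) := min_le_right _ _
      have h5 : 0 ≤ √(A + μ * B) := Real.sqrt_nonneg _
      calc σ' * √(A + μ * B) ≤ 1 / (2 * √(A + μ * B) + 1) * √(A + μ * B) :=
            mul_le_mul_of_nonneg_right h4 h5
        _ ≤ 1 / 2 := by
            rw [div_mul_eq_mul_div, div_le_div_iff₀ (by positivity) (by norm_num)]
            linarith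
    have e1 : (∫ x in Ω, (m x - φ x) * ψ x) = -1 - ∫ x in Ω, (φ x - c) * ψ x := by
      have h1 := int3 hb (f := fun x => m x * ψ x) (g := fun x => (φ x - c) * ψ x) (h := ψ)
        (hm.mul hψ.cont) (hcont.mul hψ.cont) hψ.cont (-1) (-c)
      rw [hψ0, hψm] at h1
      have h2 : (∫ x in Ω, (m x - φ x) * ψ x) =
          ∫ x in Ω, (m x * ψ x + -1 * ((φ x - c) * ψ x) + -c * ψ x) := by
        congr 1
        funext x
        ring
      rw [h2, h1]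
      ring
    have t4 : 1 / 2 ≤ √g * K := by
      rw [e1] at t3
      have h1 := (abs_le.1 t3).1
      have h2 := (abs_le.1 t1).1
      have h3 := (abs_le.1 t2).1
      have h4 : μ * (-(√g * √B)) ≤ μ * ∫ x in Ω, inner ℝ (Dφ x) (Dψ x) :=
        mul_le_mul_of_nonneg_left h3 hμ.le
      rw [hK]
      nlinarith [h1, h2, h4]
    have hsg : 0 ≤ √g := Real.sqrt_nonneg _
    have t5 : 1 / (2 * (K + 1)) ≤ √g := by
      rw [div_le_iff₀ (by positivity)]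
      nlinarith [t4, hsg]
    calc (1 / (2 * (K + 1))) ^ 2 ≤ √g ^ 2 := pow_le_pow_left₀ (by positivity) t5 2
      _ = g := Real.sq_sqrt hg0
  · intro ψ' Dψ' hψ'
    refine (hEL ψ' Dψ' hψ').trans ?_
    have h1 : 0 ≤ ∫ x in Ω, ψ' x ^ 2 := integral_nonneg fun x => sq_nonneg _
    have h2 : 0 ≤ ∫ x in Ω, ‖Dψ' x‖ ^ 2 := integral_nonneg fun x => by positivity
    have h3 : σ' ^ 2 ≤ σ ^ 2 := pow_le_pow_left₀ hs0.le (min_le_left _ _) 2
    exact mul_le_mul_of_nonneg_right h3 (by positivity)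

end Pool.Agent.Lib.MP_d8ef8f_an.Uf
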