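import Pool.Agent.Lib.MP_d8ef8f_an.Uf.Stm
import Pool.Agent.Lib.MP_d8ef8f_an.Gd.A1
import Pool.Agent.Lib.MP_d8ef8f_an.Gd.A2
import Pool.Agent.Lib.MP_d8ef8f_an.Gd.A3

/-!
# U4: the gain of the weight
-/

set_option autoImplicit false

namespace Pool.Agent.Lib.MP_d8ef8f_an.Uf

open Set Filter Topology MeasureTheory
open Pool.Agent.Lib.MP_d8ef8f_an.Gd Pool.Agent.Lib.MP_d8ef8f_an.Ff

private lemma u4_sub {n : ℕ} {Ω : Set (Sp n)} {φ w : Sp n → ℝ} {Dφ Dw : Sp n → Sp n}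
    (hφ : C1 Ω φ Dφ) (hw : C1 Ω w Dw) :
    C1 Ω (fun x => φ x - w x) (fun x => Dφ x - Dw x) := by
  refine ⟨hφ.cont.sub hw.cont, hφ.contD.sub hw.contD, ?_⟩
  intro x hx
  have h1 := (hφ.grad x hx).hasFDerivAt
  have h2 := (hw.grad x hx).hasFDerivAt
  rw [hasGradientAt_iff_hasFDerivAt]
  refine (h1.sub h2).congr_fderiv ?_
  rw [map_sub]

private lemma u4_alg {I g g' J K G μ σ c : ℝ} (hc : 0 < c) (hμ : 0 ≤ μ)
    (hI : 0 ≤ I) (hG0 : 0 ≤ G) (hEL : (K - μ * (g - J)) ^ 2 ≤ σ ^ 2 * (I + μ * G))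
    (hJ : J ≤ c / 32 * g + 8 / c * g') (hG : G ≤ 2 * g + 2 * g') :
    (1 - c / 64) * I + μ * (1 - c / 16) * g - μ * (8 / c + c / 32) * g' - 16 / c * σ ^ 2
      ≤ I + K := by
  set q := I + μ * G with hq
  have hq0 : 0 ≤ q := add_nonneg hI (mul_nonneg hμ hG0)
  have ht0 : 0 ≤ c / 64 * q + 16 / c * σ ^ 2 := by positivity
  have hsq : (K - μ * (g - J)) ^ 2 ≤ (c / 64 * q + 16 / c * σ ^ 2) ^ 2 := by
    have h1 : (c / 64 * q + 16 / c * σ ^ 2) ^ 2 =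
        (c / 64 * q - 16 / c * σ ^ 2) ^ 2 + σ ^ 2 * q := by
      field_simp
      ring
    rw [h1]
    nlinarith [sq_nonneg (c / 64 * q - 16 / c * σ ^ 2)]
  have h2 := (abs_le.1 (abs_le_of_sq_le_sq hsq ht0)).1
  have h3 : μ * J ≤ μ * (c / 32 * g + 8 / c * g') := mul_le_mul_of_nonneg_left hJ hμ
  have h4 : c / 64 * (μ * G) ≤ c / 64 * (μ * (2 * g + 2 * g')) :=
    mul_le_mul_of_nonneg_left (mul_le_mul_of_nonneg_left hG hμ) (by positivity)
  have h5 : c / 64 * q = c / 64 * I + c / 64 * (μ * G) := by rw [hq]; ring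
  rw [h5] at h2
  have h6 : μ * (8 / c + c / 32) * g' = μ * (8 / c * g') + μ * (c / 32) * g' := by ring
  rw [h6]
  have h7 : μ * (c / 32 * g + 8 / c * g') = μ * (c / 32) * g + μ * (8 / c * g') := by ring
  rw [h7] at h3
  nlinarith

theorem p_U4 : StmU4 := by
  intro n Ω hO hb m φ w Dφ Dw μ σ hm hφ hw hμ hEL c hc _
  have hψ := u4_sub hφ hw
  have h0 := hEL _ _ hψ
  have iI : IntegrableOn (fun x => (φ x - w x) ^ 2) Ω := p_A2 Ω hb _ (hψ.cont.pow 2)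
  have iK : IntegrableOn (fun x => (m x - φ x) * (φ x - w x)) Ω :=
    p_A2 Ω hb _ ((hm.sub hφ.cont).mul hψ.cont)
  have ig : IntegrableOn (fun x => ‖Dφ x‖ ^ 2) Ω := p_A2 Ω hb _ (hφ.contD.norm.pow 2)
  have ig' : IntegrableOn (fun x => ‖Dw x‖ ^ 2) Ω := p_A2 Ω hb _ (hw.contD.norm.pow 2)
  have iG : IntegrableOn (fun x => ‖Dφ x - Dw x‖ ^ 2) Ω := p_A2 Ω hb _ (hψ.contD.norm.pow 2)
  have iJ : IntegrableOn (fun x => inner ℝ (Dφ x) (Dw x)) Ω :=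
    p_A2 Ω hb _ (hφ.contD.inner hw.contD)
  -- the right hand side
  have e1 : (∫ x in Ω, (φ x - w x) * (m x - w x)) =
      (∫ x in Ω, (φ x - w x) ^ 2) + ∫ x in Ω, (m x - φ x) * (φ x - w x) := by
    rw [← integral_add iI iK]
    refine setIntegral_congr_fun hO.measurableSet (fun x _ => ?_)
    ring
  have e2 : (∫ x in Ω, inner ℝ (Dφ x) (Dφ x - Dw x)) =
      (∫ x in Ω, ‖Dφ x‖ ^ 2) - ∫ x in Ω, inner ℝ (Dφ x) (Dw x) := by
    rw [← integral_sub ig iJ]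
    refine setIntegral_congr_fun hO.measurableSet (fun x _ => ?_)
    simp only [inner_sub_right, real_inner_self_eq_norm_sq]
  rw [e2] at h0
  rw [e1]
  refine u4_alg (G := ∫ x in Ω, ‖Dφ x - Dw x‖ ^ 2) hc hμ ?_ ?_ h0 ?_ ?_
  · exact setIntegral_nonneg hO.measurableSet fun x _ => sq_nonneg _
  · exact setIntegral_nonneg hO.measurableSet fun x _ => sq_nonneg _
  · rw [← integral_const_mul, ← integral_const_mul,
      ← integral_add (ig.const_mul _) (ig'.const_mul _)]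
    refine setIntegral_mono_on iJ ((ig.const_mul _).add (ig'.const_mul _)) hO.measurableSet ?_
    intro x _
    have h1 := real_inner_le_norm (Dφ x) (Dw x)
    have h2 : c / 32 * ‖Dφ x‖ ^ 2 + 8 / c * ‖Dw x‖ ^ 2 =
        1 / (32 * c) * (c * ‖Dφ x‖ - 16 * ‖Dw x‖) ^ 2 + ‖Dφ x‖ * ‖Dw x‖ := by
      field_simp
      ring
    rw [h2]
    have h3 : 0 ≤ 1 / (32 * c) * (c * ‖Dφ x‖ - 16 * ‖Dw x‖) ^ 2 := by positivity
    linarith
  · rw [← integral_const_mul, ← integral_const_mul,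
      ← integral_add (ig.const_mul _) (ig'.const_mul _)]
    refine setIntegral_mono_on iG ((ig.const_mul _).add (ig'.const_mul _)) hO.measurableSet ?_
    intro x _
    have h1 := norm_sub_le (Dφ x) (Dw x)
    have h2 := norm_nonneg (Dφ x - Dw x)
    nlinarith [sq_nonneg (‖Dφ x‖ - ‖Dw x‖), norm_nonneg (Dφ x), norm_nonneg (Dw x)]

end Pool.Agent.Lib.MP_d8ef8f_an.Uf
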