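import Pool.Agent.Lib.MP_d8ef8f_an.Uf.Stm
import Pool.Agent.Lib.MP_d8ef8f_an.Gd.A2

/-!
# Piece U5: gradients
-/

set_option autoImplicit false

namespace Pool.Agent.Lib.MP_d8ef8f_an.Uf

open Set Filter Topology MeasureTheory
open Pool.Agent.Lib.MP_d8ef8f_an.Gd Pool.Agent.Lib.MP_d8ef8f_an.Ff

private theorem u5_sum {n N : ℕ} {Ω : Set (Sp n)} {u : Fin N → Sp n → ℝ}
    {Du : Fin N → Sp n → Sp n} (h : ∀ j, C1 Ω (u j) (Du j)) (S : Finset (Fin N)) :
    C1 Ω (fun x => ∑ j ∈ S, u j x) (fun x => ∑ j ∈ S, Du j x) := by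
  refine ⟨continuousOn_finsetSum _ fun j _ => (h j).cont,
    continuousOn_finsetSum _ fun j _ => (h j).contD, fun x hx => ?_⟩
  rw [hasGradientAt_iff_hasFDerivAt, map_sum]
  exact HasFDerivAt.fun_sum fun j _ => (h j).grad x hx

theorem p_U5 : StmU5 := by
  intro n N Ω hO hb u Du hu M ε hε hεM hM
  constructor
  · intro j
    have i1 : IntegrableOn (fun x => ‖Du j x‖ ^ 2) Ω := p_A2 Ω hb _ ((hu j).contD.norm.pow 2)
    have hc : ContinuousOn (fun x => ‖(u j x + ε)⁻¹ • Du j x‖ ^ 2) (closure Ω) := by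
      refine (ContinuousOn.smul (ContinuousOn.inv₀ ((hu j).cont.add continuousOn_const) ?_)
        (hu j).contD).norm.pow 2
      intro x hx
      have := (hM j x hx).1
      exact (by linarith : 0 < u j x + ε).ne'
    have i2 : IntegrableOn (fun x => ‖(u j x + ε)⁻¹ • Du j x‖ ^ 2) Ω := p_A2 Ω hb _ hc
    unfold En
    rw [← integral_const_mul]
    refine setIntegral_mono_on i1 (i2.const_mul _) hO.measurableSet fun x hx => ?_
    obtain ⟨h1, h2⟩ := hM j x (subset_closure hx)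
    have h3 : 0 < u j x + ε := by linarith
    have h4 : Du j x = (u j x + ε) • ((u j x + ε)⁻¹ • Du j x) := by
      rw [smul_smul, mul_inv_cancel₀ h3.ne', one_smul]
    have h5 : ‖Du j x‖ = (u j x + ε) * ‖(u j x + ε)⁻¹ • Du j x‖ := by
      conv_lhs => rw [h4]
      rw [norm_smul, Real.norm_of_nonneg h3.le]
    have h6 : (u j x + ε) ^ 2 ≤ 4 * M ^ 2 := by nlinarith
    calc ‖Du j x‖ ^ 2 = (u j x + ε) ^ 2 * ‖(u j x + ε)⁻¹ • Du j x‖ ^ 2 := by rw [h5]; ring
      _ ≤ _ := mul_le_mul_of_nonneg_right h6 (by positivity)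
  · intro S
    have hs := u5_sum hu S
    refine ⟨hs, ?_⟩
    have i1 : IntegrableOn (fun x => ‖∑ j ∈ S, Du j x‖ ^ 2) Ω := p_A2 Ω hb _ (hs.contD.norm.pow 2)
    have i2 : ∀ j, IntegrableOn (fun x => ‖Du j x‖ ^ 2) Ω := fun j =>
      p_A2 Ω hb _ ((hu j).contD.norm.pow 2)
    rw [← integral_finsetSum S fun j _ => i2 j, ← integral_const_mul]
    refine setIntegral_mono_on i1 ((integrable_finsetSum S fun j _ => i2 j).const_mul _)
      hO.measurableSet fun x _ => ?_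
    have h1 : ‖∑ j ∈ S, Du j x‖ ^ 2 ≤ (∑ j ∈ S, ‖Du j x‖) ^ 2 :=
      pow_le_pow_left₀ (norm_nonneg _) (norm_sum_le _ _) 2
    have h2 : (∑ j ∈ S, ‖Du j x‖) ^ 2 ≤ S.card * ∑ j ∈ S, ‖Du j x‖ ^ 2 :=
      sq_sum_le_card_mul_sum_sq
    have h3 : (S.card : ℝ) ≤ N := by
      have h4 : S.card ≤ N := by
        have := Finset.card_le_univ S
        rwa [Fintype.card_fin] at this
      exact_mod_cast h4
    exact h1.trans (h2.trans (mul_le_mul_of_nonneg_right h3
      (Finset.sum_nonneg fun j _ => by positivity)))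

end Pool.Agent.Lib.MP_d8ef8f_an.Uf
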