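import Pool.Agent.Lib.MP_d8ef8f_an.Uf.Stm
import Pool.Agent.Lib.MP_d8ef8f_an.Gd.A2

/-!
# Piece U7: the derivative of the functional
-/

set_option autoImplicit false

namespace Pool.Agent.Lib.MP_d8ef8f_an.Uf

open Set Filter Topology MeasureTheory
open Pool.Agent.Lib.MP_d8ef8f_an.Gd Pool.Agent.Lib.MP_d8ef8f_an.Ff

private theorem u7_sp (g : ℝ) : HasDerivAt sp (sg g) g := by
  have h1 : HasDerivAt (fun x : ℝ => 1 + Real.exp x) (Real.exp g) g :=
    (Real.hasDerivAt_exp g).const_add 1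
  exact h1.log (by positivity)

private theorem u7_sg_pos (g : ℝ) : 0 < sg g := by unfold sg; positivity

private theorem u7_sg_le (g : ℝ) : sg g ≤ 1 := by
  unfold sg
  rw [div_le_one (by positivity)]
  linarith [Real.exp_pos g]

private theorem u7_sg_half {g : ℝ} (hg : 0 ≤ g) : 1 / 2 ≤ sg g := by
  unfold sg
  rw [div_le_div_iff₀ (by norm_num) (by positivity)]
  have := Real.one_le_exp hg
  linarith

private theorem u7_abs {n : ℕ} {Ω : Set (Sp n)} (hO : IsOpen Ω) (hb : Bornology.IsBounded Ω)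
    {F F' : Sp n → ℝ} {R : ℝ} (hF : ContinuousOn F (closure Ω))
    (hF' : ContinuousOn F' (closure Ω)) (h : ∀ x ∈ closure Ω, |F x| ≤ R * F' x) :
    |∫ x in Ω, F x| ≤ R * ∫ x in Ω, F' x := by
  have i1 : IntegrableOn F Ω := p_A2 Ω hb _ hF
  have i2 : IntegrableOn F' Ω := p_A2 Ω hb _ hF'
  calc |∫ x in Ω, F x| ≤ ∫ x in Ω, |F x| := abs_integral_le_integral_abs
    _ ≤ ∫ x in Ω, R * F' x := by
      refine setIntegral_mono_on i1.abs (i2.const_mul _) hO.measurableSet ?_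
      intro x hx
      exact h x (subset_closure hx)
    _ = _ := integral_const_mul _ _

/-- the coefficient of `∫ |Dφ|²` -/
private theorem u7_g1 {c κ μ dk dl g1 : ℝ} (hc : 0 < c) (hc1 : c ≤ 1) (hdk : 0 < dk)
    (hdl : (1 + c) * dk ≤ dl) (hμ : μ = κ * dk / 2) (hg1 : 0 ≤ g1) :
    κ * μ * (c / 16) * g1 ≤ κ * (μ * (1 - c / 16) * g1) - μ ^ 2 / dl * (1 + c / 6) * g1
      - dk * (κ ^ 2 / 4 * (1 + c / 6) * g1) := by
  have hdl0 : 0 < dl := lt_of_lt_of_le (by positivity) hdl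
  have h1 : μ ^ 2 / dl ≤ κ ^ 2 * dk / 4 * (1 / (1 + c)) := by
    rw [hμ, div_le_iff₀ hdl0]
    have h2 : κ ^ 2 * dk / 4 * (1 / (1 + c)) * ((1 + c) * dk) ≤
        κ ^ 2 * dk / 4 * (1 / (1 + c)) * dl := mul_le_mul_of_nonneg_left hdl (by positivity)
    refine le_trans (le_of_eq ?_) h2
    field_simp
    ring
  have h3 : (1 + c / 6) * (1 / (1 + c)) ≤ 2 * (1 - c / 16) - (1 + c / 6) - c / 8 := by
    rw [mul_one_div, div_le_iff₀ (by linarith)]
    nlinarith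
  have h4 : μ ^ 2 / dl * (1 + c / 6) ≤ κ ^ 2 * dk / 4 * (2 * (1 - c / 16) - (1 + c / 6) - c / 8) :=
    calc μ ^ 2 / dl * (1 + c / 6) ≤ κ ^ 2 * dk / 4 * (1 / (1 + c)) * (1 + c / 6) :=
          mul_le_mul_of_nonneg_right h1 (by linarith)
      _ = κ ^ 2 * dk / 4 * ((1 + c / 6) * (1 / (1 + c))) := by ring
      _ ≤ _ := mul_le_mul_of_nonneg_left h3 (by positivity)
  have h5 := mul_le_mul_of_nonneg_right h4 hg1
  have h6 : κ * μ = κ ^ 2 * dk / 2 := by rw [hμ]; ring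
  have h7 : κ * (μ * (1 - c / 16) * g1) = κ ^ 2 * dk / 2 * (1 - c / 16) * g1 := by
    rw [← h6]; ring
  rw [h6, h7]
  linarith

/-- the coefficient of `∫ |Dw|²` -/
private theorem u7_g2 {c κ μ dk M N : ℝ} (hc : 0 < c) (hc1 : c ≤ 1) (hκ : 0 < κ) (hdk : 0 < dk)
    (hμ : μ = κ * dk / 2) (hM : 0 < M) (hN : 1 ≤ N) (hκM : 36 * N * M * κ ≤ c) :
    κ * (μ * (8 / c + c / 32)) ≤ c / (256 * N ^ 2 * M ^ 2) * dk := by
  have h1 : 8 / c + c / 32 ≤ 9 / c := by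
    have : c / 32 ≤ 1 / c := by
      rw [div_le_div_iff₀ (by norm_num) hc]
      nlinarith
    have e : 9 / c = 8 / c + 1 / c := by ring
    linarith
  have hX : 0 < 36 * N * M * κ := by positivity
  have h2 : (36 * N * M * κ) ^ 2 ≤ c ^ 2 := pow_le_pow_left₀ hX.le hκM 2
  have h3 : κ ^ 2 ≤ c ^ 2 / (1296 * N ^ 2 * M ^ 2) := by
    rw [le_div_iff₀ (by positivity)]
    have e : κ ^ 2 * (1296 * N ^ 2 * M ^ 2) = (36 * N * M * κ) ^ 2 := by ring
    rw [e]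
    exact h2
  have h4 : κ * (μ * (8 / c + c / 32)) = κ ^ 2 * (dk / 2 * (8 / c + c / 32)) := by rw [hμ]; ring
  rw [h4]
  calc κ ^ 2 * (dk / 2 * (8 / c + c / 32)) ≤ κ ^ 2 * (dk / 2 * (9 / c)) := by
        gcongr
    _ ≤ c ^ 2 / (1296 * N ^ 2 * M ^ 2) * (dk / 2 * (9 / c)) :=
        mul_le_mul_of_nonneg_right h3 (by positivity)
    _ = c / (288 * N ^ 2 * M ^ 2) * dk := by
        field_simp
        norm_num
    _ ≤ c / (256 * N ^ 2 * M ^ 2) * dk := by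
        refine mul_le_mul_of_nonneg_right ?_ hdk.le
        refine div_le_div_of_nonneg_left hc.le (by positivity) ?_
        have : 0 < N ^ 2 * M ^ 2 := by positivity
        linarith

/-- pointwise Young inequality -/
private theorem u7_young {c κ A B : ℝ} (hc : 0 < c) (hc1 : c ≤ 1) :
    A * (κ * B) ≤ (1 - c / 8) * A ^ 2 + κ ^ 2 / 4 * (1 + c / 6) * B ^ 2 := by
  have h7 : 1 ≤ (1 - c / 8) * (1 + c / 6) := by nlinarith
  have h9 : 0 ≤ κ ^ 2 * B ^ 2 := by positivity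
  have h12 : 0 ≤ (A * (2 * (1 - c / 8)) - κ * B) ^ 2 := sq_nonneg _
  have h14 : 1 * (κ ^ 2 * B ^ 2) ≤ ((1 - c / 8) * (1 + c / 6)) * (κ ^ 2 * B ^ 2) :=
    mul_le_mul_of_nonneg_right h7 h9
  have h15 : 0 ≤ 4 * (1 - c / 8) * ((1 - c / 8) * A ^ 2 + κ ^ 2 / 4 * (1 + c / 6) * B ^ 2
      - A * (κ * B)) := by
    have e : 4 * (1 - c / 8) * ((1 - c / 8) * A ^ 2 + κ ^ 2 / 4 * (1 + c / 6) * B ^ 2
        - A * (κ * B)) = (A * (2 * (1 - c / 8)) - κ * B) ^ 2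
          + (((1 - c / 8) * (1 + c / 6)) * (κ ^ 2 * B ^ 2) - 1 * (κ ^ 2 * B ^ 2)) := by ring
    rw [e]
    linarith
  have h16 : 0 < 4 * (1 - c / 8) := by linarith
  have h17 := nonneg_of_mul_nonneg_right h15 h16
  linarith

section
variable {n N : ℕ} {Ω : Set (Sp n)} {P : ℝ} {d : Fin N → ℝ} {m : Sp n → ℝ} {T : Set ℝ}
  {u ut : Fin N → ℝ → Sp n → ℝ} {Du : Fin N → ℝ → Sp n → Sp n} {lu : Fin N → ℝ → Sp n → ℝ}

/-- the derivative -/
private theorem u7_der (h3 : Ff.StmF3) (h4 : StmF4) (hu1 : StmU1) (hΩ : Dom Ω P)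
    (hm : ContinuousOn m (closure Ω)) (k l : Fin N) (mid : Finset (Fin N)) (κ ε0 K0 : ℝ)
    {φ : Sp n → ℝ} {Dφ : Sp n → Sp n} (hφ : C1 Ω φ Dφ) (hT : IsOpen T)
    (hs : IsSol Ω d m T u ut Du lu) {t : ℝ} (ht : t ∈ T) (hsl : 0 < (∫ x in Ω, u l t x ^ 2))
    {ε : ℝ} (hε : 0 < ε) (H : ℝ) (hH : H = ∫ x in Ω, (m x - ∑ j, u j t x)) (e a g : Fin N → ℝ)
    (he : ∀ i, e i = ∫ x in Ω, (ε / (u i t x + ε)) * (m x - ∑ j, u j t x))
    (ha : ∀ i, a i = d i * En Ω ε (u i t) (Du i t))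
    (hg : ∀ i, g i = Lg Ω ε (u i t) - Lg Ω ε (u k t) + K0) :
    HasDerivAt (fun s => PsU Ω k l mid K0 κ ε0 ε φ (fun j => u j s))
      ((d k * (∫ x in Ω, (1 + κ * φ x) * ‖(u k t x + ε)⁻¹ • Du k t x‖ ^ 2)
          - d k * (∫ x in Ω, inner ℝ ((u k t x + ε)⁻¹ • Du k t x) (κ • Dφ x))
          + (∫ x in Ω, (1 + κ * φ x) * (m x - ∑ j, u j t x))
          - ∫ x in Ω, (1 + κ * φ x) * (ε / (u k t x + ε)) * (m x - ∑ j, u j t x))
        - vol Ω / 2 * ((2 * (∫ x in Ω, u l t x ^ 2 * (m x - ∑ j, u j t x))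
          - 2 * d l * ∫ x in Ω, ‖Du l t x‖ ^ 2) / ∫ x in Ω, u l t x ^ 2)
        + ε0 * (∑ i ∈ mid, sg (g i) * ((a i + H - e i) - (a k + H - e k)))
        - κ * ∑ j, ∫ x in Ω, u j t x * (m x - ∑ i, u i t x)) t := by
  have hO := hΩ.isOpen
  have hb := hΩ.bdd
  have hone : C1 Ω (fun _ => (1 : ℝ)) (fun _ => (0 : Sp n)) :=
    ⟨continuousOn_const, continuousOn_const, fun x _ => by
      simpa using hasGradientAt_const x (1 : ℝ)⟩
  have hLg : ∀ i, HasDerivAt (fun s => Lg Ω ε (u i s)) (a i + H - e i) t := by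
    intro i
    have h := h3 Ω hO hb d m hm T hT u ut Du lu hs ε hε _ _ hone i t ht
    rw [ha, he, hH]
    simpa [Lg, En] using h
  have hφ1 : C1 Ω (fun x => 1 + κ * φ x) (fun x => κ • Dφ x) := by
    refine ⟨continuousOn_const.add (continuousOn_const.mul hφ.cont), hφ.contD.const_smul κ, ?_⟩
    intro x hx
    have h1 := hφ.grad x hx
    rw [hasGradientAt_iff_hasFDerivAt] at h1 ⊢
    have h2 := (h1.const_mul κ).const_add 1
    simpa using h2
  have hLφ := h3 Ω hO hb d m hm T hT u ut Du lu hs ε hε _ _ hφ1 k t ht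
  have hSq := hu1 Ω hO hb d m hm T hT u ut Du lu hs l t ht
  have hlog := hSq.log hsl.ne'
  have hmass : HasDerivAt (fun s => ∑ j, mass Ω (u j s))
      (∑ j, ∫ x in Ω, u j t x * (m x - ∑ i, u i t x)) t :=
    HasDerivAt.fun_sum fun j _ => (h4 Ω hO hb d m hm T hT u ut Du lu hs j).1 t ht
  have hsp : ∀ i, HasDerivAt (fun s => sp (Lg Ω ε (u i s) - Lg Ω ε (u k s) + K0))
      (sg (g i) * ((a i + H - e i) - (a k + H - e k))) t := by
    intro i
    rw [hg i]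
    have h := (u7_sp (Lg Ω ε (u i t) - Lg Ω ε (u k t) + K0)).comp t
      ((((hLg i).sub (hLg k)).add_const K0))
    exact h
  have hsum : HasDerivAt
      (fun s => ∑ i ∈ mid, sp (Lg Ω ε (u i s) - Lg Ω ε (u k s) + K0))
      (∑ i ∈ mid, sg (g i) * ((a i + H - e i) - (a k + H - e k))) t :=
    HasDerivAt.fun_sum fun i _ => hsp i
  exact (((hLφ.sub (hlog.const_mul (vol Ω / 2)))).add (hsum.const_mul ε0)).sub (hmass.const_mul κ)

end

/-- the quadratic term -/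
private theorem u7_quad {n N : ℕ} {Ω : Set (Sp n)} (hO : IsOpen Ω) (hb : Bornology.IsBounded Ω)
    {m φ w z : Sp n → ℝ} {v : Fin N → Sp n → ℝ} {κ m₀ Z : ℝ} (hκ : 0 < κ) (hm₀ : 0 < m₀)
    (hm : ContinuousOn m (closure Ω)) (hφ : ContinuousOn φ (closure Ω))
    (hw : ContinuousOn w (closure Ω)) (hz : ContinuousOn z (closure Ω))
    (hv : ∀ j, ContinuousOn (v j) (closure Ω)) (hsplit : ∀ x, ∑ j, v j x = w x + z x)
    (hw0 : ∀ x ∈ closure Ω, 0 ≤ w x) (hz0 : ∀ x ∈ closure Ω, 0 ≤ z x)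
    (hmm : ∀ x ∈ closure Ω, |m x| ≤ m₀) (hφm : ∀ x ∈ closure Ω, |φ x| ≤ 2 * m₀)
    (hZ : (∫ x in Ω, z x) ≤ Z) :
    (∫ x in Ω, (m x - ∑ j, v j x)) + κ * ((∫ x in Ω, (φ x - w x) * (m x - w x)) - 3 * m₀ * Z
        + ∫ x in Ω, z x ^ 2) ≤
      (∫ x in Ω, (1 + κ * φ x) * (m x - ∑ j, v j x))
        - κ * ∑ j, ∫ x in Ω, v j x * (m x - ∑ i, v i x) := by
  have ch : ContinuousOn (fun x => m x - ∑ j, v j x) (closure Ω) :=
    hm.sub (continuousOn_finsetSum _ fun j _ => hv j)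
  have cφ1 : ContinuousOn (fun x => 1 + κ * φ x) (closure Ω) :=
    continuousOn_const.add (continuousOn_const.mul hφ)
  have i1 : IntegrableOn (fun x => (1 + κ * φ x) * (m x - ∑ j, v j x)) Ω :=
    p_A2 Ω hb _ (cφ1.mul ch)
  have i2 : ∀ j, IntegrableOn (fun x => v j x * (m x - ∑ i, v i x)) Ω := fun j =>
    p_A2 Ω hb _ ((hv j).mul ch)
  have i3 : IntegrableOn (fun x => ∑ j, v j x * (m x - ∑ i, v i x)) Ω :=
    integrable_finsetSum _ fun j _ => i2 j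
  have e1 : (∫ x in Ω, (1 + κ * φ x) * (m x - ∑ j, v j x))
        - κ * ∑ j, ∫ x in Ω, v j x * (m x - ∑ i, v i x) =
      ∫ x in Ω, ((1 + κ * φ x) * (m x - ∑ j, v j x) - κ * ∑ j, v j x * (m x - ∑ i, v i x)) := by
    rw [integral_sub i1 (i3.const_mul κ), integral_const_mul, integral_finsetSum _ fun j _ => i2 j]
  have i4 : IntegrableOn (fun x => m x - ∑ j, v j x) Ω := p_A2 Ω hb _ ch
  have i5 : IntegrableOn (fun x => (φ x - w x) * (m x - w x)) Ω :=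
    p_A2 Ω hb _ ((hφ.sub hw).mul (hm.sub hw))
  have i6 : IntegrableOn z Ω := p_A2 Ω hb _ hz
  have i7 : IntegrableOn (fun x => z x ^ 2) Ω := p_A2 Ω hb _ (hz.pow 2)
  have i8 : IntegrableOn (fun x => (φ x - w x) * (m x - w x) - 3 * m₀ * z x) Ω :=
    i5.sub (i6.const_mul _)
  have i9 : IntegrableOn (fun x => (φ x - w x) * (m x - w x) - 3 * m₀ * z x + z x ^ 2) Ω :=
    i8.add i7
  have e2 : (∫ x in Ω, (m x - ∑ j, v j x)) + κ * ((∫ x in Ω, (φ x - w x) * (m x - w x))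
        - 3 * m₀ * (∫ x in Ω, z x) + ∫ x in Ω, z x ^ 2) =
      ∫ x in Ω, ((m x - ∑ j, v j x) + κ * ((φ x - w x) * (m x - w x) - 3 * m₀ * z x
        + z x ^ 2)) := by
    rw [integral_add i4 (i9.const_mul κ), integral_const_mul, integral_add i8 i7,
      integral_sub i5 (i6.const_mul _), integral_const_mul]
  have h8 : (∫ x in Ω, (m x - ∑ j, v j x)) + κ * ((∫ x in Ω, (φ x - w x) * (m x - w x))
        - 3 * m₀ * (∫ x in Ω, z x) + ∫ x in Ω, z x ^ 2) ≤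
      (∫ x in Ω, (1 + κ * φ x) * (m x - ∑ j, v j x))
        - κ * ∑ j, ∫ x in Ω, v j x * (m x - ∑ i, v i x) := by
    rw [e1, e2]
    refine setIntegral_mono_on (i4.add (i9.const_mul κ)) (i1.sub (i3.const_mul κ))
      hO.measurableSet fun x hx => ?_
    have hx' := subset_closure hx
    have h1 := hw0 x hx'
    have h2 := hz0 x hx'
    have h6 := abs_le.1 (hmm x hx')
    have h7 := abs_le.1 (hφm x hx')
    rw [← Finset.sum_mul, hsplit x]
    have h8 : 0 ≤ κ * (z x * (3 * m₀ - m x - φ x + 2 * w x)) :=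
      mul_nonneg hκ.le (mul_nonneg h2 (by linarith))
    have h9 : (1 + κ * φ x) * (m x - (w x + z x)) - κ * ((w x + z x) * (m x - (w x + z x))) -
        ((m x - (w x + z x)) + κ * ((φ x - w x) * (m x - w x) - 3 * m₀ * z x + z x ^ 2)) =
        κ * (z x * (3 * m₀ - m x - φ x + 2 * w x)) := by ring
    linarith
  have h9 : κ * (3 * m₀ * (∫ x in Ω, z x)) ≤ κ * (3 * m₀ * Z) := by
    gcongr
  have e3 : κ * ((∫ x in Ω, (φ x - w x) * (m x - w x)) - 3 * m₀ * Z + ∫ x in Ω, z x ^ 2) =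
      κ * ((∫ x in Ω, (φ x - w x) * (m x - w x)) - 3 * m₀ * (∫ x in Ω, z x)
        + ∫ x in Ω, z x ^ 2) + κ * (3 * m₀ * (∫ x in Ω, z x)) - κ * (3 * m₀ * Z) := by ring
  rw [e3]
  linarith

/-- the gradient of `w` -/
private theorem u7_grad {N : ℕ} {c κ μ dk dl M s V D2 g2 Ek G1 : ℝ} (En' : Fin N → ℝ)
    (Sm : Finset (Fin N)) (hc : 0 < c) (hc1 : c ≤ 1) (hκ : 0 < κ) (hdk : 0 < dk)
    (hdkl : dk ≤ dl) (hμ : μ = κ * dk / 2) (hM : 0 < M) (hN : (1 : ℝ) ≤ N)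
    (hκM : 36 * N * M * κ ≤ c) (hs : 0 < s) (hsM : s ≤ M ^ 2 * V) (hD2 : 0 ≤ D2)
    (hg20 : 0 ≤ g2) (hG1 : G1 ≤ 4 * M ^ 2 * Ek)
    (hg2 : g2 ≤ N * (G1 + (D2 + ∑ i ∈ Sm, 4 * M ^ 2 * En' i))) :
    κ * (μ * (8 / c + c / 32) * g2) ≤ c / (64 * N) * (dk * Ek)
      + c / (64 * N) * (∑ i ∈ Sm, dk * En' i) + c / 16 * (V * dl * D2 / s) := by
  have hN0 : (0 : ℝ) < N := by linarith
  have hcoef := u7_g2 hc hc1 hκ hdk hμ hM hN hκM
  have h1 : g2 ≤ N * (4 * M ^ 2 * Ek + (D2 + ∑ i ∈ Sm, 4 * M ^ 2 * En' i)) :=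
    hg2.trans (mul_le_mul_of_nonneg_left (by linarith) hN0.le)
  have hdl : 0 < dl := by linarith
  have hXD : dl * D2 / M ^ 2 ≤ V * dl * D2 / s := by
    rw [div_le_div_iff₀ (by positivity) hs]
    have h1 : dl * D2 * s ≤ dl * D2 * (M ^ 2 * V) :=
      mul_le_mul_of_nonneg_left hsM (by positivity)
    linarith
  have hX0 : 0 ≤ V * dl * D2 / s := le_trans (by positivity) hXD
  have hX1 : dl * D2 / M ^ 2 * (c / 256) ≤ c / 16 * (V * dl * D2 / s) := by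
    have h2 := mul_le_mul_of_nonneg_right hXD (by positivity : 0 ≤ c / 256)
    have h3 : V * dl * D2 / s * (c / 256) ≤ c / 16 * (V * dl * D2 / s) := by
      have : 0 ≤ c * (V * dl * D2 / s) := by positivity
      linarith
    linarith
  calc κ * (μ * (8 / c + c / 32) * g2) = κ * (μ * (8 / c + c / 32)) * g2 := by ring
    _ ≤ c / (256 * N ^ 2 * M ^ 2) * dk * g2 := mul_le_mul_of_nonneg_right hcoef hg20
    _ ≤ c / (256 * N ^ 2 * M ^ 2) * dk *
          (N * (4 * M ^ 2 * Ek + (D2 + ∑ i ∈ Sm, 4 * M ^ 2 * En' i))) :=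
        mul_le_mul_of_nonneg_left h1 (by positivity)
    _ = c / (64 * N) * (dk * Ek) + c / (64 * N) * (∑ i ∈ Sm, dk * En' i)
          + dk * D2 / M ^ 2 * (c / 256) * (1 / N) := by
        rw [← Finset.mul_sum, ← Finset.mul_sum]
        field_simp
        ring
    _ ≤ c / (64 * N) * (dk * Ek) + c / (64 * N) * (∑ i ∈ Sm, dk * En' i)
          + c / 16 * (V * dl * D2 / s) := by
        have h6 : dk * D2 / M ^ 2 * (c / 256) * (1 / N) ≤ dl * D2 / M ^ 2 * (c / 256) * 1 := by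
          have h7 : (1 : ℝ) / N ≤ 1 := by
            rw [div_le_one hN0]
            exact hN
          gcongr
        linarith

/-- the final algebra -/
private theorem u7_alg {c κ μ ak dkA dkB E Q' H V2 ε0 TA TE T ek G1k F Z z2 g0 g1 g1' mg2 X2 S1
    R Erk TEr err N64 : ℝ} (hc : 0 < c) (hc1 : c ≤ 1) (hκ : 0 < κ) (hak : 0 ≤ ak)
    (hRE : 0 ≤ R * Erk) (hg0 : 0 ≤ g0) (hz2 : 0 ≤ z2)
    (b5 : (1 - c / 32) * ak ≤ dkA) (b6 : dkB ≤ (1 - c / 8) * ak + G1k)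
    (b7 : c / 16 * X2 - g1' - κ / 4 * (g0 + z2) - err ≤ H - V2)
    (b8 : (1 - c / 64) * g0 + g1 - mg2 - S1 ≤ F)
    (b9 : H + κ * (F - Z + z2) ≤ Q')
    (b10 : κ * mg2 ≤ N64 * ak + TA + c / 16 * X2)
    (hN64 : N64 * ak ≤ c / 64 * ak)
    (q1 : ε0 * T * ak ≤ c / 32 * ak) (q2 : - (c / 32 * (R * Erk)) ≤ ε0 * T * ek)
    (q3 : ε0 * TE ≤ R * TEr) (q4 : E ≤ (1 + c / 32) * R * Erk)
    (q8 : κ * μ ≤ κ * g1 - g1' - G1k) :
    κ * μ - S1 * κ - err - κ * Z - R * (2 * Erk + TEr) ≤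
      dkA - dkB - E + Q' - V2 + TA - ε0 * TE - ε0 * T * ak + ε0 * T * ek := by
  have h1 : 0 ≤ c * ak := by positivity
  have h2 : κ * ((1 - c / 64) * g0 + g1 - mg2 - S1) ≤ κ * F := mul_le_mul_of_nonneg_left b8 hκ.le
  have h3 : 0 ≤ κ * g0 := by positivity
  have h4 : 0 ≤ κ * z2 := by positivity
  have h5 : c * (κ * g0) ≤ 1 * (κ * g0) := mul_le_mul_of_nonneg_right hc1 h3
  have h6 : c * (R * Erk) ≤ 1 * (R * Erk) := mul_le_mul_of_nonneg_right hc1 hRE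
  linarith

theorem p_U7 (h3 : Ff.StmF3) (h4 : StmF4) (hu1 : StmU1) (hu2 : StmU2) (hu4 : StmU4)
    (hu5 : StmU5) : StmU7 := by
  classical
  intro n N Ω P hΩ d m hm hd m₀ hm₀ hmm k l mid L hkl hkm hlm hkL hlL hmL hall hdk c hc hc1 hdkl
    M R κ μ hM hR hκ hμ hκm0 hκM hRP φ Dφ σ hφ hφm hEL T hT u ut Du lu hs t ht huM huR hsl
    ε hε hεM κm ν K0 hκm hmid hLν
  have hO := hΩ.isOpen
  have hb := hΩ.bdd
  have hP := hΩ.hP
  have hN : 0 < N := k.pos
  have hN1 : (1 : ℝ) ≤ (N : ℝ) := by exact_mod_cast hN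
  have hN0 : (0 : ℝ) < (N : ℝ) := by linarith
  have hdk0 := hd k
  have hdl0 := hd l
  have hκ0 : 0 < κ := by rw [hκ]; positivity
  have hμ0 : 0 < μ := by rw [hμ]; positivity
  -- continuity
  have hcu : ∀ j, ContinuousOn (u j t) (closure Ω) := by
    intro j
    exact (hs.cu j).comp (f := fun x => (t, x)) (by fun_prop) (fun x hx => ⟨ht, hx⟩)
  have hcD : ∀ j, ContinuousOn (Du j t) (closure Ω) := by
    intro j
    exact (hs.cD j).comp (f := fun x => (t, x)) (by fun_prop) (fun x hx => ⟨ht, hx⟩)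
  have hnn : ∀ j, ∀ x ∈ closure Ω, 0 ≤ u j t x := fun j x hx => hs.nonneg j t ht x hx
  have hpos : ∀ j, ∀ x ∈ closure Ω, 0 < u j t x + ε := fun j x hx => by
    have := hnn j x hx
    linarith
  have cw : ∀ j, ContinuousOn (fun x => u j t x + ε) (closure Ω) := fun j =>
    (hcu j).add continuousOn_const
  have cE : ∀ j, ContinuousOn (fun x => ε / (u j t x + ε)) (closure Ω) := fun j =>
    continuousOn_const.div (cw j) fun x hx => (hpos j x hx).ne'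
  have cG : ∀ j, ContinuousOn (fun x => (u j t x + ε)⁻¹ • Du j t x) (closure Ω) := fun j =>
    ((cw j).inv₀ fun x hx => (hpos j x hx).ne').smul (hcD j)
  have ch : ContinuousOn (fun x => m x - ∑ j, u j t x) (closure Ω) :=
    hm.sub (continuousOn_finsetSum _ fun j _ => hcu j)
  have cφ1 : ContinuousOn (fun x => 1 + κ * φ x) (closure Ω) :=
    continuousOn_const.add (continuousOn_const.mul hφ.cont)
  have hvol : 0 < vol Ω := by
    unfold vol
    refine ENNReal.toReal_pos ?_ ?_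
    · exact (hO.measure_pos volume hΩ.nonempty).ne'
    · exact hb.measure_lt_top.ne
  -- the derivatives
  obtain ⟨e, he⟩ : ∃ e : Fin N → ℝ, ∀ i, e i =
      ∫ x in Ω, (ε / (u i t x + ε)) * (m x - ∑ j, u j t x) := ⟨_, fun _ => rfl⟩
  obtain ⟨En', hEn'⟩ : ∃ En' : Fin N → ℝ, ∀ i, En' i = En Ω ε (u i t) (Du i t) :=
    ⟨_, fun _ => rfl⟩
  obtain ⟨a, ha⟩ : ∃ a : Fin N → ℝ, ∀ i, a i = d i * En' i := ⟨_, fun _ => rfl⟩
  obtain ⟨g, hg⟩ : ∃ g : Fin N → ℝ, ∀ i, g i = Lg Ω ε (u i t) - Lg Ω ε (u k t) + K0 :=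
    ⟨_, fun _ => rfl⟩
  have hε0p : 0 < c / (32 * (N : ℝ)) := by positivity
  refine ⟨_, u7_der h3 h4 hu1 hΩ hm k l mid κ (c / (32 * N)) K0 hφ hT hs ht hsl hε _ rfl e a g he
    (fun i => by rw [ha, hEn']) hg, ?_⟩
  -- nonnegativity
  have hEn : ∀ i, 0 ≤ En' i := fun i => by
    rw [hEn']
    unfold En
    exact setIntegral_nonneg hO.measurableSet fun x _ => by positivity
  have ha0 : ∀ i, 0 ≤ a i := fun i => by
    rw [ha]
    exact mul_nonneg (hd i).le (hEn i)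
  have hEr0 : ∀ i, 0 ≤ Er Ω ε (u i t) := fun i => by
    unfold Er
    exact setIntegral_nonneg hO.measurableSet fun x hx =>
      (div_pos hε (hpos i x (subset_closure hx))).le
  have hmass0 : ∀ i, 0 ≤ mass Ω (u i t) := fun i => by
    unfold mass
    exact setIntegral_nonneg hO.measurableSet fun x hx => hnn i x (subset_closure hx)
  have hκφ : ∀ x ∈ closure Ω, |κ * φ x| ≤ c / 32 := fun x hx => by
    rw [abs_mul, abs_of_pos hκ0]
    have h1 := mul_le_mul_of_nonneg_left (hφm x hx) hκ0.le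
    linarith
  -- error terms
  have b2 : ∀ i, |e i| ≤ R * Er Ω ε (u i t) := by
    intro i
    rw [he]
    refine u7_abs hO hb ((cE i).mul ch) (cE i) fun x hx => ?_
    rw [abs_mul, abs_of_pos (div_pos hε (hpos i x hx)), mul_comm]
    exact mul_le_mul_of_nonneg_right (huR x hx) (div_pos hε (hpos i x hx)).le
  have b4 : |∫ x in Ω, (1 + κ * φ x) * (ε / (u k t x + ε)) * (m x - ∑ j, u j t x)| ≤
      ((1 + c / 32) * R) * Er Ω ε (u k t) := by
    refine u7_abs hO hb ((cφ1.mul (cE k)).mul ch) (cE k) fun x hx => ?_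
    have h1 := div_pos hε (hpos k x hx)
    have h2 : |1 + κ * φ x| ≤ 1 + c / 32 := by
      have := abs_le.1 (hκφ x hx)
      rw [abs_le]
      constructor <;> linarith
    rw [abs_mul, abs_mul, abs_of_pos h1]
    calc |1 + κ * φ x| * (ε / (u k t x + ε)) * |m x - ∑ j, u j t x|
        ≤ (1 + c / 32) * (ε / (u k t x + ε)) * R :=
          mul_le_mul (mul_le_mul_of_nonneg_right h2 h1.le) (huR x hx) (abs_nonneg _)
            (by positivity)
      _ = _ := by ring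
  -- gradient terms
  have iEn : IntegrableOn (fun x => ‖(u k t x + ε)⁻¹ • Du k t x‖ ^ 2) Ω :=
    p_A2 Ω hb _ ((cG k).norm.pow 2)
  have b5 : (1 - c / 32) * a k ≤
      d k * ∫ x in Ω, (1 + κ * φ x) * ‖(u k t x + ε)⁻¹ • Du k t x‖ ^ 2 := by
    have h1 : (1 - c / 32) * En' k ≤
        ∫ x in Ω, (1 + κ * φ x) * ‖(u k t x + ε)⁻¹ • Du k t x‖ ^ 2 := by
      rw [hEn']
      unfold En
      rw [← integral_const_mul]
      refine setIntegral_mono_on (iEn.const_mul _) (p_A2 Ω hb _ (cφ1.mul ((cG k).norm.pow 2)))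
        hO.measurableSet fun x hx => ?_
      have := abs_le.1 (hκφ x (subset_closure hx))
      exact mul_le_mul_of_nonneg_right (by linarith) (by positivity)
    have h2 := mul_le_mul_of_nonneg_left h1 hdk0.le
    rw [ha]
    linarith
  have iG : IntegrableOn (fun x => ‖Dφ x‖ ^ 2) Ω := p_A2 Ω hb _ (hφ.contD.norm.pow 2)
  have hg10 : 0 ≤ ∫ x in Ω, ‖Dφ x‖ ^ 2 :=
    setIntegral_nonneg hO.measurableSet fun x _ => by positivity
  have iB : IntegrableOn (fun x => inner ℝ ((u k t x + ε)⁻¹ • Du k t x) (κ • Dφ x)) Ω :=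
    p_A2 Ω hb _ ((cG k).inner (hφ.contD.const_smul κ))
  have b6 : d k * (∫ x in Ω, inner ℝ ((u k t x + ε)⁻¹ • Du k t x) (κ • Dφ x)) ≤
      (1 - c / 8) * a k + d k * (κ ^ 2 / 4 * (1 + c / 6) * ∫ x in Ω, ‖Dφ x‖ ^ 2) := by
    have h2 : (∫ x in Ω, inner ℝ ((u k t x + ε)⁻¹ • Du k t x) (κ • Dφ x)) ≤
        ∫ x in Ω, ((1 - c / 8) * ‖(u k t x + ε)⁻¹ • Du k t x‖ ^ 2 +
        κ ^ 2 / 4 * (1 + c / 6) * ‖Dφ x‖ ^ 2) := by
      refine setIntegral_mono_on iB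
        ((iEn.const_mul _).add (iG.const_mul _)) hO.measurableSet ?_
      intro x _
      have h5 := real_inner_le_norm ((u k t x + ε)⁻¹ • Du k t x) (κ • Dφ x)
      have h5' : ‖κ • Dφ x‖ = κ * ‖Dφ x‖ := by
        rw [norm_smul, Real.norm_eq_abs, abs_of_pos hκ0]
      rw [h5'] at h5
      exact h5.trans (u7_young hc hc1)
    rw [integral_add (iEn.const_mul _) (iG.const_mul _), integral_const_mul,
      integral_const_mul] at h2
    have h3 : (∫ x in Ω, ‖(u k t x + ε)⁻¹ • Du k t x‖ ^ 2) = En' k := (hEn' k).symm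
    rw [h3] at h2
    have h1 := mul_le_mul_of_nonneg_left h2 hdk0.le
    rw [ha]
    linarith
  -- the sets of species
  obtain ⟨Sm, hSm⟩ : ∃ Sm : Finset (Fin N), Sm = mid.filter (fun i => 0 ≤ g i) := ⟨_, rfl⟩
  obtain ⟨S, hS⟩ : ∃ S : Finset (Fin N), S = insert k (insert l Sm) := ⟨_, rfl⟩
  have hlSm : l ∉ Sm := fun h => hlm (Finset.mem_filter.1 (hSm ▸ h)).1
  have hkSm : k ∉ Sm := fun h => hkm (Finset.mem_filter.1 (hSm ▸ h)).1
  have hkS : k ∉ insert l Sm := by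
    rw [Finset.mem_insert]
    rintro (h | h)
    · exact hkl h
    · exact hkSm h
  obtain ⟨w, hw⟩ : ∃ w : Sp n → ℝ, w = fun x => ∑ j ∈ S, u j t x := ⟨_, rfl⟩
  obtain ⟨z, hz⟩ : ∃ z : Sp n → ℝ, z = fun x => ∑ j ∈ Sᶜ, u j t x := ⟨_, rfl⟩
  have hsplit : ∀ x, ∑ j, u j t x = w x + z x := fun x => by
    rw [hw, hz]
    exact (Finset.sum_add_sum_compl S _).symm
  have hub := fun j x hx => And.intro (hnn j x hx) (huM j x hx)
  have h5 := hu5 Ω hO hb (fun j => u j t) (fun j => Du j t) (fun j => (hs.lap j t ht).c1) M ε hε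
    hεM hub
  have hwC : C1 Ω w (fun x => ∑ j ∈ S, Du j t x) := hw ▸ (h5.2 S).1
  have hw2 := (h5.2 S).2
  have hw0 : ∀ x ∈ closure Ω, 0 ≤ w x := fun x hx => by
    rw [hw]
    exact Finset.sum_nonneg fun j _ => hnn j x hx
  have hz0 : ∀ x ∈ closure Ω, 0 ≤ z x := fun x hx => by
    rw [hz]
    exact Finset.sum_nonneg fun j _ => hnn j x hx
  have cwc : ContinuousOn w (closure Ω) := hwC.cont
  have cz : ContinuousOn z (closure Ω) := by
    rw [hz]
    exact continuousOn_finsetSum _ fun j _ => hcu j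
  -- the small species
  have hz1 : (∫ x in Ω, z x) ≤ N * κm + ν := by
    have h1 : (∫ x in Ω, z x) = ∑ j ∈ Sᶜ, mass Ω (u j t) := by
      rw [hz, integral_finsetSum _ fun j _ => p_A2 Ω hb _ (hcu j)]
      rfl
    have h2 : Sᶜ ⊆ (mid \ Sm) ∪ L := by
      intro j hj
      rw [Finset.mem_compl, hS, Finset.mem_insert, Finset.mem_insert] at hj
      push Not at hj
      rw [Finset.mem_union, Finset.mem_sdiff]
      rcases hall j with h | h | h | h
      · exact absurd h hj.1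
      · exact absurd h hj.2.1
      · exact Or.inl ⟨h, hj.2.2⟩
      · exact Or.inr h
    have h6 : ∑ j ∈ Sᶜ, mass Ω (u j t) ≤ ∑ j ∈ (mid \ Sm) ∪ L, mass Ω (u j t) :=
      Finset.sum_le_sum_of_subset_of_nonneg h2 fun j _ _ => hmass0 j
    have hdisj : Disjoint (mid \ Sm) L :=
      Finset.disjoint_of_subset_left Finset.sdiff_subset hmL
    rw [Finset.sum_union hdisj] at h6
    have h7 : ∑ j ∈ mid \ Sm, mass Ω (u j t) ≤ N * κm := by
      have h8 : ∀ j ∈ mid \ Sm, mass Ω (u j t) ≤ κm := by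
        intro j hj
        rw [Finset.mem_sdiff] at hj
        rcases hmid j hj.1 with h | h
        · exact h
        · refine absurd ?_ hj.2
          rw [hSm, Finset.mem_filter, hg]
          exact ⟨hj.1, h⟩
      refine (Finset.sum_le_card_nsmul _ _ κm h8).trans ?_
      rw [nsmul_eq_mul]
      refine mul_le_mul_of_nonneg_right ?_ hκm
      have h9 : (mid \ Sm).card ≤ N := by simpa using Finset.card_le_univ (mid \ Sm)
      exact_mod_cast h9
    rw [h1]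
    linarith
  -- the function h = m - φ + (φ - w) - z
  have hh : ∀ x ∈ closure Ω, m x - ∑ j, u j t x = (m x - φ x) + (φ x - w x) - z x := fun x _ => by
    rw [hsplit]
    ring
  have cp : ContinuousOn (fun x => φ x - w x) (closure Ω) := hφ.cont.sub cwc
  have b7 := hu2 Ω P hΩ (u l t) (Du l t) (hs.lap l t ht).c1 hsl m φ Dφ μ σ hm hφ hμ0.le hEL
    (fun x => φ x - w x) z (fun x => m x - ∑ j, u j t x) cp cz ch hh R huR c (d l) hc hc1 hdl0 hRP
  have hg00 : 0 ≤ ∫ x in Ω, (φ x - w x) ^ 2 :=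
    setIntegral_nonneg hO.measurableSet fun x _ => by positivity
  have hz20 : 0 ≤ ∫ x in Ω, z x ^ 2 :=
    setIntegral_nonneg hO.measurableSet fun x _ => by positivity
  have b8 := hu4 Ω hO hb m φ w Dφ (fun x => ∑ j ∈ S, Du j t x) μ σ hm hφ hwC hμ0.le hEL c hc hc1
  have b9 := u7_quad hO hb hκ0 hm₀ hm hφ.cont cwc cz hcu hsplit hw0 hz0 hmm hφm hz1
  -- the species in the middle
  have hcard : (mid.card : ℝ) ≤ (N : ℝ) := by
    have h1 := Finset.card_le_univ mid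
    rw [Fintype.card_fin] at h1
    exact_mod_cast h1
  have hTA : c / (64 * N) * ∑ i ∈ Sm, d k * En' i ≤
      c / (32 * N) * ∑ i ∈ mid, sg (g i) * a i := by
    have h1 : c / (64 * N) * ∑ i ∈ Sm, d k * En' i =
        c / (32 * N) * ∑ i ∈ Sm, 1 / 2 * (d k * En' i) := by
      rw [← Finset.mul_sum Sm (fun i => d k * En' i) (1 / 2)]
      have e : c / (64 * (N : ℝ)) = c / (32 * N) * (1 / 2) := by
        field_simp
        norm_num
      rw [e]
      ring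
    rw [h1]
    refine mul_le_mul_of_nonneg_left ?_ hε0p.le
    calc ∑ i ∈ Sm, 1 / 2 * (d k * En' i) ≤ ∑ i ∈ Sm, sg (g i) * a i := by
          refine Finset.sum_le_sum fun i hi => ?_
          have hi' := Finset.mem_filter.1 (hSm ▸ hi)
          have h2 := u7_sg_half hi'.2
          have h6 : d k * En' i ≤ a i := by
            rw [ha]
            exact mul_le_mul_of_nonneg_right (hdk i hi'.1) (hEn i)
          have h7 : 0 ≤ d k * En' i := mul_nonneg hdk0.le (hEn i)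
          exact mul_le_mul h2 h6 h7 (u7_sg_pos _).le
      _ ≤ ∑ i ∈ mid, sg (g i) * a i := by
          refine Finset.sum_le_sum_of_subset_of_nonneg ?_ fun i _ _ =>
            mul_nonneg (u7_sg_pos _).le (ha0 i)
          rw [hSm]
          exact Finset.filter_subset _ _
  -- the gradient of w
  have hD20 : 0 ≤ ∫ x in Ω, ‖Du l t x‖ ^ 2 :=
    setIntegral_nonneg hO.measurableSet fun x _ => by positivity
  have hsM : (∫ x in Ω, u l t x ^ 2) ≤ M ^ 2 * vol Ω := by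
    have h1 : (∫ x in Ω, u l t x ^ 2) ≤ ∫ _ in Ω, M ^ 2 := by
      refine setIntegral_mono_on (p_A2 Ω hb _ ((hcu l).pow 2)) (p_A2 Ω hb _ continuousOn_const)
        hO.measurableSet ?_
      intro x hx
      exact pow_le_pow_left₀ (hnn l x (subset_closure hx)) (huM l x (subset_closure hx)) 2
    rw [setIntegral_const, smul_eq_mul, mul_comm] at h1
    exact h1
  have hdkdl : d k ≤ d l := by nlinarith
  have hg20 : 0 ≤ ∫ x in Ω, ‖∑ j ∈ S, Du j t x‖ ^ 2 :=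
    setIntegral_nonneg hO.measurableSet fun x _ => by positivity
  have hG1 : (∫ x in Ω, ‖Du k t x‖ ^ 2) ≤ 4 * M ^ 2 * En' k := by
    rw [hEn']
    exact h5.1 k
  have hg2' : (∫ x in Ω, ‖∑ j ∈ S, Du j t x‖ ^ 2) ≤
      N * ((∫ x in Ω, ‖Du k t x‖ ^ 2) + ((∫ x in Ω, ‖Du l t x‖ ^ 2)
        + ∑ i ∈ Sm, 4 * M ^ 2 * En' i)) := by
    refine hw2.trans (mul_le_mul_of_nonneg_left ?_ hN0.le)
    rw [hS, Finset.sum_insert hkS, Finset.sum_insert hlSm]
    have h6 : ∑ i ∈ Sm, (∫ x in Ω, ‖Du i t x‖ ^ 2) ≤ ∑ i ∈ Sm, 4 * M ^ 2 * En' i :=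
      Finset.sum_le_sum fun i _ => by
        rw [hEn']
        exact h5.1 i
    linarith
  have b10 := u7_grad En' Sm hc hc1 hκ0 hdk0 hdkdl hμ hM hN1 hκM hsl hsM hD20 hg20 hG1
    hg2'
  have b3 : |∑ i ∈ mid, sg (g i) * e i| ≤ R * ∑ i ∈ mid, sg (g i) * Er Ω ε (u i t) := by
    rw [Finset.mul_sum]
    refine (Finset.abs_sum_le_sum_abs _ _).trans (Finset.sum_le_sum fun i _ => ?_)
    rw [abs_mul, abs_of_pos (u7_sg_pos _)]
    have h1 := mul_le_mul_of_nonneg_left (b2 i) (u7_sg_pos (g i)).le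
    linarith
  have hTEr : 0 ≤ ∑ i ∈ mid, sg (g i) * Er Ω ε (u i t) :=
    Finset.sum_nonneg fun i _ => mul_nonneg (u7_sg_pos _).le (hEr0 i)
  have hTτ : 0 ≤ ∑ i ∈ mid, sg (g i) := Finset.sum_nonneg fun i _ => (u7_sg_pos _).le
  have hTτ' : ∑ i ∈ mid, sg (g i) ≤ (N : ℝ) := by
    calc ∑ i ∈ mid, sg (g i) ≤ ∑ i ∈ mid, (1 : ℝ) := Finset.sum_le_sum fun i _ => u7_sg_le _
      _ = mid.card := by simp
      _ ≤ _ := hcard
  have hsumeq : ∀ H : ℝ, ∑ i ∈ mid, sg (g i) * ((a i + H - e i) - (a k + H - e k)) =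
      (∑ i ∈ mid, sg (g i) * a i) - (∑ i ∈ mid, sg (g i) * e i)
        - (∑ i ∈ mid, sg (g i)) * (a k - e k) := by
    intro H
    rw [Finset.sum_mul, ← Finset.sum_sub_distrib, ← Finset.sum_sub_distrib]
    refine Finset.sum_congr rfl fun i _ => ?_
    ring
  rw [hsumeq]
  have hεT : c / (32 * (N : ℝ)) * ∑ i ∈ mid, sg (g i) ≤ c / 32 := by
    have h1 := mul_le_mul_of_nonneg_left hTτ' hε0p.le
    have h2 : c / (32 * (N : ℝ)) * (N : ℝ) = c / 32 := by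
      field_simp
    linarith
  have hεT0 : 0 ≤ c / (32 * (N : ℝ)) * ∑ i ∈ mid, sg (g i) := mul_nonneg hε0p.le hTτ
  have hε01 : c / (32 * (N : ℝ)) ≤ 1 := by
    rw [div_le_one (by positivity)]
    linarith
  have hak := ha0 k
  have hErk := hEr0 k
  have hRE : 0 ≤ R * Er Ω ε (u k t) := by positivity
  have hRT : 0 ≤ R * ∑ i ∈ mid, sg (g i) * Er Ω ε (u i t) := by positivity
  have q1 : c / (32 * (N : ℝ)) * (∑ i ∈ mid, sg (g i)) * a k ≤ c / 32 * a k :=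
    mul_le_mul_of_nonneg_right hεT hak
  have q2 : - (c / 32 * (R * Er Ω ε (u k t))) ≤
      c / (32 * (N : ℝ)) * (∑ i ∈ mid, sg (g i)) * e k := by
    have h1 := (abs_le.1 (b2 k)).1
    have h2 := mul_le_mul_of_nonneg_left h1 hεT0
    have h6 := mul_le_mul_of_nonneg_right hεT hRE
    linarith
  have q3 : c / (32 * (N : ℝ)) * (∑ i ∈ mid, sg (g i) * e i) ≤
      R * ∑ i ∈ mid, sg (g i) * Er Ω ε (u i t) := by
    have h1 := (abs_le.1 b3).2
    have h2 := mul_le_mul_of_nonneg_left h1 hε0p.le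
    have h6 := mul_le_mul_of_nonneg_right hε01 hRT
    linarith
  have q5 : c / (64 * N) * a k ≤ c / 64 * a k := by
    refine mul_le_mul_of_nonneg_right ?_ hak
    refine div_le_div_of_nonneg_left hc.le (by norm_num) ?_
    linarith
  have q7 : 64 / c * (P / d l) = κ / 4 := by
    rw [hκ]
    field_simp
    norm_num
  rw [q7] at b7
  have q8 := u7_g1 hc hc1 hdk0 hdkl hμ hg10
  have hak' : d k * En' k = a k := (ha k).symm
  rw [hak'] at b10
  have q6 : vol Ω / 2 * ((2 * (∫ x in Ω, u l t x ^ 2 * (m x - ∑ j, u j t x))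
          - 2 * d l * ∫ x in Ω, ‖Du l t x‖ ^ 2) / ∫ x in Ω, u l t x ^ 2) =
      vol Ω * (((∫ x in Ω, u l t x ^ 2 * (m x - ∑ j, u j t x))
          - d l * ∫ x in Ω, ‖Du l t x‖ ^ 2) / ∫ x in Ω, u l t x ^ 2) := by
    ring
  rw [q6]
  have key := u7_alg (μ := μ * (c / 16) * ∫ x in Ω, ‖Dφ x‖ ^ 2) hc hc1 hκ0 hak hRE hg00 hz20 b5 b6
    b7 b8 b9 (b10.trans (by linarith [hTA] : _ ≤ c / (64 * N) * a k
      + c / (32 * N) * (∑ i ∈ mid, sg (g i) * a i) + c / 16 * (vol Ω * d l *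
        (∫ x in Ω, ‖Du l t x‖ ^ 2) / ∫ x in Ω, u l t x ^ 2))) q5 q1 q2 q3 (abs_le.1 b4).2
    (by
      have e1 : κ * (μ * (c / 16) * ∫ x in Ω, ‖Dφ x‖ ^ 2) =
        κ * μ * (c / 16) * ∫ x in Ω, ‖Dφ x‖ ^ 2 := by ring
      rw [e1]
      exact q8)
  have hgE : ∑ i ∈ mid, sg (Lg Ω ε (u i t) - Lg Ω ε (u k t) + K0) * Er Ω ε (u i t) =
      ∑ i ∈ mid, sg (g i) * Er Ω ε (u i t) :=
    Finset.sum_congr rfl fun i _ => by rw [hg]
  rw [hgE]
  refine le_trans (le_of_eq ?_) (key.trans (le_of_eq ?_)) <;> ring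

end Pool.Agent.Lib.MP_d8ef8f_an.Uf
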