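import Pool.Agent.Lib.MP_d8ef8f_an.Ff.Near
import Pool.Agent.Lib.MP_d8ef8f_an.Uf.U0
import Pool.Agent.Lib.MP_d8ef8f_an.Uf.U1
import Pool.Agent.Lib.MP_d8ef8f_an.Uf.U2
import Pool.Agent.Lib.MP_d8ef8f_an.Uf.U3
import Pool.Agent.Lib.MP_d8ef8f_an.Uf.U4
import Pool.Agent.Lib.MP_d8ef8f_an.Uf.U5
import Pool.Agent.Lib.MP_d8ef8f_an.Uf.U7
import Pool.Agent.Lib.MP_d8ef8f_an.Uf.U10

/-!
# Near and far species with explicit thresholds
-/

set_option autoImplicit false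

namespace Pool.Agent.Lib.MP_d8ef8f_an.Uf

open Set Filter Topology MeasureTheory
open Pool.Agent.Lib.MP_d8ef8f_an.Gd Pool.Agent.Lib.MP_d8ef8f_an.Ff

theorem u10_all : StmU10 :=
  p_U10 p_U0 Ff.p_F3 p_F4 p_F5 p_U3 (p_U7 Ff.p_F3 p_F4 p_U1 p_U2 p_U4 p_U5) p_F9

/-- **attraction from the attraction towards `E_k` among the near species** -/
theorem attr_of_near {n : ℕ} (N : ℕ) {Ω : Set (Sp n)} {P : ℝ} (hD : Dom Ω P)
    {m : Sp n → ℝ} (hm : ContinuousOn m (closure Ω))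
    (hnc : ∃ x ∈ closure Ω, ∃ y ∈ closure Ω, m x ≠ m y) {m₀ : ℝ}
    (hmm : ∀ x ∈ closure Ω, |m x| ≤ m₀) {c : ℝ} (hc : 0 < c) (hc1 : c ≤ 1)
    (d : Fin N → ℝ) (hd : ∀ j, 0 < d j) (hmono : StrictMono d) (k l : Fin N) (hkl : k ≤ l)
    (hfar : ∀ j, l < j → (1 + c) * d k ≤ d j ∧ 20000 * N * P * m₀ ≤ c ^ 2 * d j)
    (θ : Sp n → ℝ) (hA : AttrSU Ω d m k θ (Finset.univ.filter (fun j => j < k) ∪
        Finset.univ.filter (fun j => l < j))) : Attr Ω d m k θ := by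
  classical
  have hm₀ : 0 < m₀ := by
    obtain ⟨x, hx, y, hy, hxy⟩ := hnc
    have h1 := abs_le.1 (hmm x hx)
    have h2 := abs_le.1 (hmm y hy)
    rcases lt_or_ge 0 m₀ with h | h
    · exact h
    · exact absurd (by linarith [h1.1, h1.2, h2.1, h2.2] : m x = m y) hxy
  apply attr_of_attrS hD.bdd
  set L : Finset (Fin N) := Finset.univ.filter (fun j => j < k) with hL
  set F : Finset (Fin N) := Finset.univ.filter (fun j => l < j) with hF
  have hLm : ∀ j, j ∈ L ↔ j < k := fun j => by simp [hL]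
  have hFm : ∀ j, j ∈ F ↔ l < j := fun j => by simp [hF]
  refine attrS_of_dies hD hm ?_ ?_ hA
  · rw [Finset.disjoint_left]
    intro j hj hj'
    exact absurd ((hLm j).1 hj) (not_lt.2 (hkl.trans ((hFm j).1 hj').le))
  · intro j hj
    have hlj := (hFm j).1 hj
    have hkj : k < j := lt_of_le_of_lt hkl hlj
    intro M A q hA0 hq
    refine u10_all N Ω P hD m hm hnc m₀ hm₀ hmm c hc hc1 d hd k j L hkj.ne (by simp [hLm])
      (by simp [hLm, hkj.le]) ?_ (hfar j hlj).1 (hfar j hlj).2 M A q hA0 hq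
    intro i hi
    have : ¬ i < k := fun h => hi ((hLm i).2 h)
    exact hmono.monotone (not_lt.1 this)

end Pool.Agent.Lib.MP_d8ef8f_an.Uf
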