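import Pool.Agent.Lib.MP_d8ef8f_an.Ff.Stm

/-!
# The uniform fast species lemma: statements of the pieces

`StmU10`: for `0 < c ≤ 1` every species `l` with `d l ≥ (1 + c) d k` and
`d l ≥ 20000 N P m₀ / c²` (`P` a Poincaré constant, `|m| ≤ m₀`) dies out when species `k` is present
and all rates outside the low set `L` are at least `d k`. There is no condition on `d k`.

The functional is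
`∫ (1 + κ φ) log (u_k + ε) - (vol / 2) log ∫ u_l² + ε₀ ∑_{mid} sp (Lg u_i - Lg u_k + K0)
  - κ ∑_j mass u_j`, `κ = 256 P / (c d_l)`, `ε₀ = c / (32 N)`, where `φ` is an approximate minimiser
of `∫ (φ - m)² + μ ∫ |∇φ|²`, `μ = κ d_k / 2`.
-/

set_option autoImplicit false

namespace Pool.Agent.Lib.MP_d8ef8f_an.Uf

open Set Filter Topology MeasureTheory
open Pool.Agent.Lib.MP_d8ef8f_an.Gd Pool.Agent.Lib.MP_d8ef8f_an.Ff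

/-- `φ` solves `φ - μ Δφ = m` (Neumann condition) up to an error `σ` -/
def EL {n : ℕ} (Ω : Set (Sp n)) (m φ : Sp n → ℝ) (Dφ : Sp n → Sp n) (μ σ : ℝ) : Prop :=
  ∀ (ψ : Sp n → ℝ) (Dψ : Sp n → Sp n), C1 Ω ψ Dψ →
    ((∫ x in Ω, (m x - φ x) * ψ x) - μ * ∫ x in Ω, inner ℝ (Dφ x) (Dψ x)) ^ 2 ≤
      σ ^ 2 * ((∫ x in Ω, ψ x ^ 2) + μ * ∫ x in Ω, ‖Dψ x‖ ^ 2)

/-- the functional -/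
noncomputable def PsU {n N : ℕ} (Ω : Set (Sp n)) (k l : Fin N) (mid : Finset (Fin N))
    (K0 κ ε0 ε : ℝ) (φ : Sp n → ℝ) (u : Fin N → Sp n → ℝ) : ℝ :=
  (∫ x in Ω, (1 + κ * φ x) * Real.log (u k x + ε)) - vol Ω / 2 * Real.log (∫ x in Ω, u l x ^ 2)
    + ε0 * ∑ i ∈ mid, sp (Lg Ω ε (u i) - Lg Ω ε (u k) + K0) - κ * ∑ j, mass Ω (u j)

/-- **U0** sup bound `2 m₀` after a uniform time.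
Proof. As in `Ff/F1.lean` with `K₁ = m₀` (only `m ≤ m₀`, `0 < m₀` is used there): barrier
`κ s = m₀ + |M| e^{-m₀ (s-a)}`; `τ` with `|M| e^{-m₀ τ} ≤ m₀`. -/
def StmU0 : Prop :=
  ∀ {n : ℕ} (Ω : Set (Sp n)), IsOpen Ω → Bornology.IsBounded Ω → ∀ (m : Sp n → ℝ),
    ContinuousOn m (closure Ω) → ∀ m₀ : ℝ, 0 < m₀ → (∀ x ∈ closure Ω, m x ≤ m₀) →
    ∀ {N : ℕ} (d : Fin N → ℝ), (∀ j, 0 < d j) →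
    ∀ M : ℝ, ∃ τ : ℝ, 0 ≤ τ ∧ ∀ (T : Set ℝ), IsOpen T → ∀ (a b : ℝ), Icc a b ⊆ T →
    ∀ (u ut : Fin N → ℝ → Sp n → ℝ) (Du : Fin N → ℝ → Sp n → Sp n) (lu : Fin N → ℝ → Sp n → ℝ),
      IsSol Ω d m T u ut Du lu → (∀ j, ∀ t ∈ Icc a b, ∀ x ∈ closure Ω, u j t x ≤ M) →
      ∀ j, ∀ t ∈ Icc (a + τ) b, ∀ x ∈ closure Ω, u j t x ≤ 2 * m₀

/-- **U1** derivative of `∫ u_l²`.
Proof. `p_A3` with `F = u²`, `Ft = 2 u ut`, `ut = d lu + u h`, Green (`(hs.lap l t ht).green`) with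
`ψ = u_l`. -/
def StmU1 : Prop :=
  ∀ {n N : ℕ} (Ω : Set (Sp n)), IsOpen Ω → Bornology.IsBounded Ω → ∀ (d : Fin N → ℝ)
    (m : Sp n → ℝ), ContinuousOn m (closure Ω) → ∀ (T : Set ℝ), IsOpen T →
    ∀ (u ut : Fin N → ℝ → Sp n → ℝ) (Du : Fin N → ℝ → Sp n → Sp n) (lu : Fin N → ℝ → Sp n → ℝ),
      IsSol Ω d m T u ut Du lu → ∀ l, ∀ t ∈ T,
      HasDerivAt (fun s => ∫ x in Ω, u l s x ^ 2)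
        (2 * (∫ x in Ω, u l t x ^ 2 * (m x - ∑ j, u j t x)) - 2 * d l * ∫ x in Ω, ‖Du l t x‖ ^ 2) t

/-- **U2** the fast species (static).
Proof. `V = vol`, `s = ∫ u²`, `c̄ = (∫ u) / V`, `w = u - c̄`, `∫ w = 0`, `s = c̄² V + ∫ w²`,
`D = ∫ |Du|²`, `∫ w² ≤ P D` (`Poinc`: `∫ w² ≤ ∫ (u - c')²`). As `s - V u² = ∫ w² - 2 V c̄ w - V w²`,
`∫ h - V ∫ u² h / s = (∫ w² ∫ h - V ∫ w² h - 2 V c̄ ∫ w h) / s`. Let `X² = V d D / s`, so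
`V c̄² ≤ s`, `|V c̄| √D / s ≤ X / √d`.
* `|∫ w² ∫ h - V ∫ w² h| ≤ 2 R V P D`, i.e. `(2 R P / d) X² ≤ (c/64) X²` after division by `s`.
* `∫ w h = ∫ w (m - φ) + ∫ w p - ∫ w z`; `|∫ w p| ≤ √(P D) √(∫ p²)`, so
  `2 V |c̄| |∫ w p| / s ≤ 2 X √(P/d) √(∫ p²) ≤ (c/64) X² + (64/c) (P/d) ∫ p²`; same for `z`.
* `EL` with `ψ = w`: `|∫ w (m - φ)| ≤ μ |∫ ⟨Dφ, Du⟩| + σ √((P + μ) D)`; with `g = ∫ |Dφ|²`: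
  `2 V |c̄| μ √g √D / s ≤ 2 X (μ/√d) √g ≤ (1 - c/8) X² + (μ²/d) (1 + c/6) g`
  (`(1 - c/8) (1 + c/6) ≥ 1`), `2 V |c̄| σ √((P+μ) D) / s ≤ (c/64) X² + (64/c) ((P+μ)/d) σ²`.
* total: `X² - (1 - c/8) X² - 4 (c/64) X² = (c/16) X²`. -/
def StmU2 : Prop :=
  ∀ {n : ℕ} (Ω : Set (Sp n)) (P : ℝ), Dom Ω P → ∀ (u : Sp n → ℝ) (Du : Sp n → Sp n), C1 Ω u Du →
    0 < (∫ x in Ω, u x ^ 2) → ∀ (m φ : Sp n → ℝ) (Dφ : Sp n → Sp n) (μ σ : ℝ),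
    ContinuousOn m (closure Ω) → C1 Ω φ Dφ → 0 ≤ μ → EL Ω m φ Dφ μ σ →
    ∀ (p z h : Sp n → ℝ), ContinuousOn p (closure Ω) → ContinuousOn z (closure Ω) →
    ContinuousOn h (closure Ω) → (∀ x ∈ closure Ω, h x = (m x - φ x) + p x - z x) →
    ∀ R : ℝ, (∀ x ∈ closure Ω, |h x| ≤ R) →
    ∀ c d : ℝ, 0 < c → c ≤ 1 → 0 < d → 128 * R * P ≤ c * d →
      c / 16 * (vol Ω * d * (∫ x in Ω, ‖Du x‖ ^ 2) / ∫ x in Ω, u x ^ 2)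
        - μ ^ 2 / d * (1 + c / 6) * (∫ x in Ω, ‖Dφ x‖ ^ 2)
        - 64 / c * (P / d) * ((∫ x in Ω, p x ^ 2) + ∫ x in Ω, z x ^ 2)
        - 64 / c * ((P + μ) / d) * σ ^ 2
      ≤ (∫ x in Ω, h x) - vol Ω * (((∫ x in Ω, u x ^ 2 * h x) - d * ∫ x in Ω, ‖Du x‖ ^ 2)
          / ∫ x in Ω, u x ^ 2)

/-- **U3** the weight.
Proof. `J φ = ∫ (φ - m)² + μ ∫ |Dφ|²` over all `C1 Ω φ Dφ`, infimum `I ≥ 0`. For `σ' > 0` take `φ₀`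
with `J φ₀ ≤ I + σ'²` and `φ = Tr ∘ φ₀`, where `Tr s = s` for `|s| ≤ m₀`, `Tr s = 2 m₀ - m₀²/s` for
`s > m₀`, `Tr s = - 2 m₀ - m₀²/s` for `s < - m₀`; `Tr` is of class `C¹`, `0 ≤ Tr' ≤ 1`,
`|Tr s| ≤ 2 m₀`, `|Tr s - a| ≤ |s - a|` for `|a| ≤ m₀`; so `J φ ≤ J φ₀`. For `ψ`, `q = ∫ ψ² + μ ∫|Dψ|²`,
`B = ∫ (m-φ) ψ - μ ∫ ⟨Dφ, Dψ⟩`: `I ≤ J (φ + r ψ) = J φ - 2 r B + r² q` for all `r`, so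
`2 r B ≤ σ'² + r² q`, `B² ≤ σ'² q`. Lower bound of `g = ∫ |Dφ|²`: with `ψ₀` of `StmF8` (`p_F8`),
`∫ ψ₀ = 0`, `∫ m ψ₀ = -1`, `q₀`; `∫ (m-φ) ψ₀ = - 1 - ∫ (φ - c) ψ₀`, so by Poincaré and `EL`
`1 ≤ √(P g) √(∫ψ₀²) + μ √g √(∫|Dψ₀|²) + σ' √q₀`; for `σ' = min σ (1/(2 √q₀ + 1))` this gives
`√g ≥ 1 / (2 (√P √(∫ψ₀²) + μ √(∫|Dψ₀|²)))`. -/
def StmU3 : Prop :=
  ∀ {n : ℕ} (Ω : Set (Sp n)) (P : ℝ), Dom Ω P → ∀ (m : Sp n → ℝ),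
    ContinuousOn m (closure Ω) → (∃ x ∈ closure Ω, ∃ y ∈ closure Ω, m x ≠ m y) →
    ∀ m₀ : ℝ, 0 < m₀ → (∀ x ∈ closure Ω, |m x| ≤ m₀) → ∀ μ : ℝ, 0 < μ →
    ∃ g : ℝ, 0 < g ∧ ∀ σ : ℝ, 0 < σ → ∃ (φ : Sp n → ℝ) (Dφ : Sp n → Sp n), C1 Ω φ Dφ ∧
      (∀ x ∈ closure Ω, |φ x| ≤ 2 * m₀) ∧ g ≤ (∫ x in Ω, ‖Dφ x‖ ^ 2) ∧ EL Ω m φ Dφ μ σ

/-- **U4** the gain of the weight (static).
Proof. `(φ-w)(m-w) = (φ-w)² + (φ-w)(m-φ)`; `EL` with `ψ = φ - w`, `q = ∫ ψ² + μ ∫ |Dφ - Dw|²`,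
`q ≤ ∫ (φ-w)² + 2 μ g + 2 μ g'` (`g = ∫|Dφ|²`, `g' = ∫ |Dw|²`):
`∫ (m-φ)(φ-w) ≥ μ g - μ ∫ ⟨Dφ, Dw⟩ - σ √q`, `|∫⟨Dφ, Dw⟩| ≤ (c/32) g + (8/c) g'`,
`σ √q ≤ (c/64) q + (16/c) σ²`. -/
def StmU4 : Prop :=
  ∀ {n : ℕ} (Ω : Set (Sp n)), IsOpen Ω → Bornology.IsBounded Ω → ∀ (m φ w : Sp n → ℝ)
    (Dφ Dw : Sp n → Sp n) (μ σ : ℝ), ContinuousOn m (closure Ω) → C1 Ω φ Dφ → C1 Ω w Dw →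
    0 ≤ μ → EL Ω m φ Dφ μ σ → ∀ c : ℝ, 0 < c → c ≤ 1 →
      (1 - c / 64) * (∫ x in Ω, (φ x - w x) ^ 2) + μ * (1 - c / 16) * (∫ x in Ω, ‖Dφ x‖ ^ 2)
        - μ * (8 / c + c / 32) * (∫ x in Ω, ‖Dw x‖ ^ 2) - 16 / c * σ ^ 2
      ≤ ∫ x in Ω, (φ x - w x) * (m x - w x)

/-- **U5** gradients.
Proof. `|Du| = (u + ε) |(u+ε)⁻¹ Du|`, `u + ε ≤ 2 M`; Cauchy-Schwarz for the finite sum. -/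
def StmU5 : Prop :=
  ∀ {n N : ℕ} (Ω : Set (Sp n)), IsOpen Ω → Bornology.IsBounded Ω → ∀ (u : Fin N → Sp n → ℝ)
    (Du : Fin N → Sp n → Sp n), (∀ j, C1 Ω (u j) (Du j)) → ∀ (M ε : ℝ), 0 < ε → ε ≤ M →
    (∀ j, ∀ x ∈ closure Ω, 0 ≤ u j x ∧ u j x ≤ M) →
      (∀ j, (∫ x in Ω, ‖Du j x‖ ^ 2) ≤ 4 * M ^ 2 * En Ω ε (u j) (Du j)) ∧
      ∀ S : Finset (Fin N), C1 Ω (fun x => ∑ j ∈ S, u j x) (fun x => ∑ j ∈ S, Du j x) ∧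
        (∫ x in Ω, ‖∑ j ∈ S, Du j x‖ ^ 2) ≤ N * ∑ j ∈ S, ∫ x in Ω, ‖Du j x‖ ^ 2

/-- **U7** the derivative of the functional. -/
def StmU7 : Prop :=
  ∀ {n N : ℕ} (Ω : Set (Sp n)) (P : ℝ), Dom Ω P → ∀ (d : Fin N → ℝ) (m : Sp n → ℝ),
    ContinuousOn m (closure Ω) → (∀ j, 0 < d j) → ∀ m₀ : ℝ, 0 < m₀ →
    (∀ x ∈ closure Ω, |m x| ≤ m₀) → ∀ (k l : Fin N) (mid L : Finset (Fin N)), k ≠ l → k ∉ mid →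
    l ∉ mid → k ∉ L → l ∉ L → Disjoint mid L → (∀ j, j = k ∨ j = l ∨ j ∈ mid ∨ j ∈ L) →
    (∀ i ∈ mid, d k ≤ d i) → ∀ c : ℝ, 0 < c → c ≤ 1 → (1 + c) * d k ≤ d l →
    ∀ (M R κ μ : ℝ), 0 < M → 0 < R → κ = 256 * P / (c * d l) → μ = κ * d k / 2 →
    64 * m₀ * κ ≤ c → 36 * N * M * κ ≤ c → 128 * R * P ≤ c * d l →
    ∀ (φ : Sp n → ℝ) (Dφ : Sp n → Sp n) (σ : ℝ), C1 Ω φ Dφ → (∀ x ∈ closure Ω, |φ x| ≤ 2 * m₀) →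
    EL Ω m φ Dφ μ σ → ∀ (T : Set ℝ), IsOpen T →
    ∀ (u ut : Fin N → ℝ → Sp n → ℝ) (Du : Fin N → ℝ → Sp n → Sp n) (lu : Fin N → ℝ → Sp n → ℝ),
      IsSol Ω d m T u ut Du lu → ∀ t ∈ T, (∀ j, ∀ x ∈ closure Ω, u j t x ≤ M) →
      (∀ x ∈ closure Ω, |m x - ∑ j, u j t x| ≤ R) → 0 < (∫ x in Ω, u l t x ^ 2) →
    ∀ ε : ℝ, 0 < ε → ε ≤ M → ∀ (κm ν K0 : ℝ), 0 ≤ κm →
      (∀ i ∈ mid, mass Ω (u i t) ≤ κm ∨ 0 ≤ Lg Ω ε (u i t) - Lg Ω ε (u k t) + K0) →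
      (∑ j ∈ L, mass Ω (u j t)) ≤ ν →
      ∃ ψ' : ℝ, HasDerivAt (fun s => PsU Ω k l mid K0 κ (c / (32 * N)) ε φ (fun j => u j s)) ψ' t ∧
        κ * μ * (c / 16) * (∫ x in Ω, ‖Dφ x‖ ^ 2) - 16 / c * κ * σ ^ 2
          - 64 / c * ((P + μ) / d l) * σ ^ 2 - 3 * m₀ * κ * (N * κm + ν)
          - R * (2 * Er Ω ε (u k t) +
            ∑ i ∈ mid, sg (Lg Ω ε (u i t) - Lg Ω ε (u k t) + K0) * Er Ω ε (u i t)) ≤ ψ'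

/-- **U10** fast species die out. -/
def StmU10 : Prop :=
  ∀ {n : ℕ} (N : ℕ) (Ω : Set (Sp n)) (P : ℝ), Dom Ω P → ∀ (m : Sp n → ℝ),
    ContinuousOn m (closure Ω) → (∃ x ∈ closure Ω, ∃ y ∈ closure Ω, m x ≠ m y) →
    ∀ m₀ : ℝ, 0 < m₀ → (∀ x ∈ closure Ω, |m x| ≤ m₀) → ∀ c : ℝ, 0 < c → c ≤ 1 →
    ∀ (d : Fin N → ℝ), (∀ j, 0 < d j) → ∀ (k l : Fin N) (L : Finset (Fin N)), k ≠ l → k ∉ L →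
    l ∉ L → (∀ j, j ∉ L → d k ≤ d j) → (1 + c) * d k ≤ d l →
    20000 * N * P * m₀ ≤ c ^ 2 * d l → ∀ (M A κ : ℝ), 0 < A → 0 < κ →
    ∃ S ν : ℝ, 0 < ν ∧ ∀ (T : Set ℝ), IsOpen T → ∀ (a b : ℝ), a ≤ b → Icc a b ⊆ T →
    ∀ (u ut : Fin N → ℝ → Sp n → ℝ) (Du : Fin N → ℝ → Sp n → Sp n) (lu : Fin N → ℝ → Sp n → ℝ),
      IsSol Ω d m T u ut Du lu → (∀ j, ∀ t ∈ Icc a b, ∀ x ∈ closure Ω, u j t x ≤ M) →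
      A ≤ mass Ω (u k a) → (∀ t ∈ Icc a b, (∑ j ∈ L, mass Ω (u j t)) ≤ ν) →
      κ ≤ mass Ω (u l b) → b - a ≤ S

end Pool.Agent.Lib.MP_d8ef8f_an.Uf
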